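import Mathlib

/-!
# Partitions of edge-coloured graphs into monochromatic cycles

The colour of an edge `uv` is `χ s(u, v)`.
-/

namespace Pool.Agent.Lib.MP_6df53f_co

/-- `C` is the vertex set of a monochromatic cycle of the coloured graph `(G, χ)`: it is empty, a
single vertex, the pair of ends of an edge, or the set of vertices of a cycle of `G` all of whose
edges have the same colour. -/
def IsMonoCycle {V : Type*} {r : ℕ} (G : SimpleGraph V) (χ : Sym2 V → Fin r) (C : Finset V) :
    Prop :=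
  C.card ≤ 1 ∨ (∃ u v, G.Adj u v ∧ ∀ w, w ∈ C ↔ w = u ∨ w = v) ∨
    ∃ (i : Fin r) (v : V) (p : G.Walk v v), p.IsCycle ∧ (∀ e ∈ p.edges, χ e = i) ∧
      ∀ w, w ∈ C ↔ w ∈ p.support

/-- The vertices of `(G, χ)` can be partitioned into `k` monochromatic cycles. -/
def HasCyclePartition {V : Type*} {r : ℕ} (G : SimpleGraph V) (χ : Sym2 V → Fin r) (k : ℕ) :
    Prop :=
  ∃ C : Fin k → Finset V, (∀ j, IsMonoCycle G χ (C j)) ∧
    (∀ j j', j ≠ j' → Disjoint (C j) (C j')) ∧ ∀ v, ∃ j, v ∈ C j

/-- The least number of monochromatic cycles partitioning the vertices of `(G, χ)`. -/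
noncomputable def cp {V : Type*} {r : ℕ} (G : SimpleGraph V) (χ : Sym2 V → Fin r) : ℕ :=
  sInf {k | HasCyclePartition G χ k}

/-- `cp_r(δ)`: the upper limit for `n → ∞` of the maximum of `cp` over all `r`-edge-coloured
graphs on `n` vertices with minimum degree at least `(1 - δ) n`. -/
noncomputable def cpr (r : ℕ) (δ : ℝ) : EReal :=
  Filter.limsup (fun n : ℕ => ⨆ (G : SimpleGraph (Fin n)) (χ : Sym2 (Fin n) → Fin r)
    (_ : ∀ v, (1 - δ) * n ≤ (G.neighborSet v).ncard), ((cp G χ : ℝ) : EReal)) Filter.atTop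

end Pool.Agent.Lib.MP_6df53f_co
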