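import Mathlib

/-!
# Transversal designs and bad points

A design: colours `A`, parts `B`, points `ι`; the point `x` lies in the part `φ a x` of colour `a`.
Two points share a part in at most one colour, each part has exactly `K` points.
-/

open Finset

set_option linter.unusedSectionVars false

namespace Pool.Agent.Lib.MP_6df53f_co

variable {ι A B : Type*} [Fintype ι] [DecidableEq ι] [Fintype A] [DecidableEq A] [Fintype B]
  [DecidableEq B]

/-- A design with `p` colours of `p` parts, each part with exactly `K` points. -/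
structure Design (K p : ℕ) (φ : A → ι → B) : Prop where
  cardA : Fintype.card A = p
  cardB : Fintype.card B = p
  codeg : ∀ x y, x ≠ y → (univ.filter fun a => φ a x = φ a y).card ≤ 1
  fib : ∀ a b, (univ.filter fun x => φ a x = b).card = K

/-- the points of the part `b` of colour `a` -/
def fiber (φ : A → ι → B) (a : A) (b : B) : Finset ι := univ.filter fun x => φ a x = b

lemma mem_fiber {φ : A → ι → B} {a : A} {b : B} {x : ι} : x ∈ fiber φ a b ↔ φ a x = b := by
  simp [fiber]

lemma Design.card_points {K p : ℕ} {φ : A → ι → B} (h : Design K p φ) (a : A) :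
    Fintype.card ι = K * p := by
  have h1 : (univ : Finset ι).card = ∑ b : B, (univ.filter fun x => φ a x = b).card :=
    Finset.card_eq_sum_card_fiberwise (fun x _ => mem_univ _)
  rw [← Finset.card_univ, h1, Finset.sum_congr rfl (fun b _ => h.fib a b)]
  simp [h.cardB, mul_comm]

/-- the bad points of a set `S` of removed parts: at least half of the parts are removed -/
def bad (φ : A → ι → B) (S : Finset (A × B)) : Finset ι :=
  univ.filter fun x => Fintype.card A ≤ 2 * (univ.filter fun a => (a, φ a x) ∈ S).card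

lemma sum_sq_le {K p : ℕ} {φ : A → ι → B} (h : Design K p φ) (W : Finset ι) :
    ∑ a : A, ∑ b : B, (W.filter fun x => φ a x = b).card ^ 2 ≤ W.card * p + W.card ^ 2 := by
  have h1 : ∀ a : A, ∑ b : B, (W.filter fun x => φ a x = b).card ^ 2 =
      ∑ x ∈ W, ∑ y ∈ W, if φ a x = φ a y then 1 else 0 := by
    intro a
    have h2 : ∀ b : B, (W.filter fun x => φ a x = b).card ^ 2 =
        ∑ x ∈ W, ∑ y ∈ W, if φ a x = b ∧ φ a y = b then 1 else 0 := by
      intro b
      rw [sq, Finset.card_filter, Finset.sum_mul_sum]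
      refine Finset.sum_congr rfl fun x _ => Finset.sum_congr rfl fun y _ => ?_
      by_cases hx : φ a x = b <;> by_cases hy : φ a y = b <;> simp [hx, hy]
    rw [Finset.sum_congr rfl (fun b _ => h2 b), Finset.sum_comm]
    refine Finset.sum_congr rfl fun x _ => ?_
    rw [Finset.sum_comm]
    refine Finset.sum_congr rfl fun y _ => ?_
    by_cases hxy : φ a x = φ a y
    · rw [if_pos hxy]
      rw [Finset.sum_eq_single (φ a x)]
      · simp [hxy]
      · intro b _ hb
        rw [if_neg]
        rintro ⟨h3, -⟩
        exact hb h3.symm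
      · intro h3; exact absurd (mem_univ _) h3
    · rw [if_neg hxy]
      refine Finset.sum_eq_zero fun b _ => ?_
      rw [if_neg]
      rintro ⟨h3, h4⟩
      exact hxy (h3.trans h4.symm)
  rw [Finset.sum_congr rfl (fun a _ => h1 a), Finset.sum_comm]
  have h2 : ∀ x ∈ W, ∑ a : A, ∑ y ∈ W, (if φ a x = φ a y then 1 else 0) ≤ p + W.card := by
    intro x hx
    rw [Finset.sum_comm, ← Finset.add_sum_erase _ _ hx]
    have h3 : (∑ a : A, if φ a x = φ a x then 1 else 0) = p := by simp [h.cardA]
    rw [h3]
    have h4 : ∑ y ∈ W.erase x, ∑ a : A, (if φ a x = φ a y then 1 else 0) ≤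
        ∑ y ∈ W.erase x, 1 := by
      refine Finset.sum_le_sum fun y hy => ?_
      have := h.codeg x y (Finset.ne_of_mem_erase hy).symm
      rwa [Finset.card_filter] at this
    have h5 : ∑ y ∈ W.erase x, 1 ≤ W.card := by
      simp only [Finset.sum_const, smul_eq_mul, mul_one]
      exact Finset.card_le_card (Finset.erase_subset _ _)
    omega
  calc ∑ x ∈ W, ∑ a : A, ∑ y ∈ W, (if φ a x = φ a y then 1 else 0)
      ≤ ∑ x ∈ W, (p + W.card) := Finset.sum_le_sum h2
    _ = W.card * p + W.card ^ 2 := by
      simp only [Finset.sum_const, smul_eq_mul]; ring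

/-- the number of bad points is at most `8 |S| / p` -/
lemma card_bad_le {K p : ℕ} {φ : A → ι → B} (h : Design K p φ) (S : Finset (A × B))
    (hS : 8 * S.card ≤ p ^ 2) : (bad φ S).card * p ≤ 8 * S.card := by
  classical
  set W := bad φ S with hW
  set w := W.card with hw
  rcases Nat.eq_zero_or_pos w with h0 | h0
  · rw [h0]; simp
  -- incidences
  have h1 : w * p ≤ 2 * ∑ x ∈ W, (univ.filter fun a => (a, φ a x) ∈ S).card := by
    rw [Finset.mul_sum]
    have : w * p = ∑ x ∈ W, p := by simp [hw]
    rw [this]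
    refine Finset.sum_le_sum fun x hx => ?_
    have := (Finset.mem_filter.1 hx).2
    rwa [h.cardA] at this
  have h2 : ∑ x ∈ W, (univ.filter fun a => (a, φ a x) ∈ S).card =
      ∑ q ∈ S, (W.filter fun x => φ q.1 x = q.2).card := by
    simp only [Finset.card_filter]
    rw [Finset.sum_comm]
    have h3 : ∀ a : A, ∀ x : ι, (if (a, φ a x) ∈ S then 1 else 0) =
        ∑ b : B, if (a, b) ∈ S then (if φ a x = b then 1 else 0) else 0 := by
      intro a x
      rw [Finset.sum_eq_single (φ a x)]
      · simp
      · intro b _ hb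
        split_ifs with h4 h5
        · exact absurd h5.symm hb
        · rfl
        · rfl
      · intro h5; exact absurd (mem_univ _) h5
    simp_rw [h3]
    have h4 : ∀ a : A, ∑ x ∈ W, ∑ b : B, (if (a, b) ∈ S then (if φ a x = b then 1 else 0) else 0) =
        ∑ b : B, if (a, b) ∈ S then ∑ x ∈ W, (if φ a x = b then 1 else 0) else 0 := by
      intro a
      rw [Finset.sum_comm]
      refine Finset.sum_congr rfl fun b _ => ?_
      split_ifs
      · rfl
      · simp
    rw [Finset.sum_congr rfl (fun a _ => h4 a)]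
    rw [← Finset.sum_product' (s := univ) (t := univ)
      (f := fun a b => if (a, b) ∈ S then ∑ x ∈ W, (if φ a x = b then 1 else 0) else 0)]
    rw [Finset.univ_product_univ, ← Finset.sum_filter]
    refine Finset.sum_congr ?_ fun q _ => rfl
    ext q; simp
  have h3 : (∑ q ∈ S, (W.filter fun x => φ q.1 x = q.2).card) ^ 2 ≤
      S.card * ∑ q ∈ S, (W.filter fun x => φ q.1 x = q.2).card ^ 2 := by
    exact sq_sum_le_card_mul_sum_sq
  have h4 : ∑ q ∈ S, (W.filter fun x => φ q.1 x = q.2).card ^ 2 ≤ w * p + w ^ 2 := by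
    refine le_trans ?_ (sum_sq_le h W)
    rw [← Finset.sum_product' (s := univ) (t := univ)
      (f := fun a b => (W.filter fun x => φ a x = b).card ^ 2)]
    exact Finset.sum_le_sum_of_subset (fun q _ => by simp)
  rw [h2] at h1
  set N := ∑ q ∈ S, (W.filter fun x => φ q.1 x = q.2).card
  have h5 : (w * p) ^ 2 ≤ 4 * (S.card * (w * p + w ^ 2)) := by
    calc (w * p) ^ 2 ≤ (2 * N) ^ 2 := Nat.pow_le_pow_left h1 2
      _ = 4 * N ^ 2 := by ring
      _ ≤ 4 * (S.card * (w * p + w ^ 2)) := by
        refine Nat.mul_le_mul_left 4 (h3.trans (Nat.mul_le_mul_left _ h4))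
  have h6 : w * p ^ 2 ≤ 4 * (S.card * (p + w)) := by
    have : w * (w * p ^ 2) ≤ w * (4 * (S.card * (p + w))) := by
      calc w * (w * p ^ 2) = (w * p) ^ 2 := by ring
        _ ≤ _ := h5
        _ = w * (4 * (S.card * (p + w))) := by ring
    exact Nat.le_of_mul_le_mul_left this h0
  rcases Nat.eq_zero_or_pos p with hp | hp
  · rw [hp]; simp
  have h7 : p * (w * p) ≤ p * (8 * S.card) := by nlinarith
  exact Nat.le_of_mul_le_mul_left h7 hp

end Pool.Agent.Lib.MP_6df53f_co
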