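import Pool.Agent.Lib.MP_6df53f_co.Defs

/-!
# From selections of parts to coloured graphs
-/

open Finset

set_option linter.unusedSectionVars false

namespace Pool.Agent.Lib.MP_6df53f_co

variable {V β J I B : Type*}

/-- adjacency of labels -/
def gAdj (sel : β → I → Option B) (X : I → J → B) : β ⊕ J → β ⊕ J → Prop
  | Sum.inr _, Sum.inr _ => True
  | Sum.inl y, Sum.inr x => ∃ i, sel y i = some (X i x)
  | Sum.inr x, Sum.inl y => ∃ i, sel y i = some (X i x)
  | Sum.inl _, Sum.inl _ => False

/-- the graph -/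
def gr (lab : V → β ⊕ J) (sel : β → I → Option B) (X : I → J → B) : SimpleGraph V where
  Adj u v := u ≠ v ∧ gAdj sel X (lab u) (lab v)
  symm := ⟨by
    rintro u v ⟨h1, h2⟩
    refine ⟨h1.symm, ?_⟩
    rcases hu : lab u with y | x <;> rcases hv : lab v with y' | x' <;> rw [hu, hv] at h2 <;>
      exact h2⟩
  loopless := ⟨fun u h => h.1 rfl⟩

/-- the pair `e` can receive the colour `i` -/
def canCol (lab : V → β ⊕ J) (sel : β → I → Option B) (X : I → J → B) (e : Sym2 V) (i : I) :
    Prop :=
  ∃ u v y x, e = s(u, v) ∧ lab u = Sum.inl y ∧ lab v = Sum.inr x ∧ sel y i = some (X i x)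

open Classical in
/-- the colouring -/
noncomputable def colr (lab : V → β ⊕ J) (sel : β → I → Option B) (X : I → J → B) (e : Sym2 V) :
    Option I :=
  if h : ∃ i, canCol lab sel X e i then some h.choose else none

/-- the vertex `w` belongs to the part `b` of colour `i` -/
def inPart (lab : V → β ⊕ J) (sel : β → I → Option B) (X : I → J → B) (i : I) (b : B) (w : V) :
    Prop :=
  (∀ y, lab w = Sum.inl y → sel y i = some b) ∧ (∀ x, lab w = Sum.inr x → X i x = b)

variable {lab : V → β ⊕ J} {sel : β → I → Option B} {X : I → J → B}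

lemma inPart_unique {i : I} {b b' : B} {w : V} (h : inPart lab sel X i b w)
    (h' : inPart lab sel X i b' w) : b = b' := by
  rcases hw : lab w with y | x
  · have h1 := h.1 y hw
    rw [h'.1 y hw] at h1
    exact (Option.some.inj h1).symm
  · rw [← h.2 x hw, ← h'.2 x hw]

lemma colr_some {u v : V} {i : I} (h : colr lab sel X s(u, v) = some i) :
    ∃ b, inPart lab sel X i b u ∧ inPart lab sel X i b v := by
  unfold colr at h
  split_ifs at h with h1
  have h2 : canCol lab sel X s(u, v) i := by
    have h3 := h1.choose_spec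
    rw [Option.some.inj h] at h3
    exact h3
  obtain ⟨u', v', y, x, he, hu, hv, hs⟩ := h2
  have hu' : inPart lab sel X i (X i x) u' := by
    refine ⟨fun y' hy' => ?_, fun x' hx' => ?_⟩
    · rw [hu] at hy'
      rw [← Sum.inl.inj hy']; exact hs
    · rw [hu] at hx'; exact absurd hx' (by simp)
  have hv' : inPart lab sel X i (X i x) v' := by
    refine ⟨fun y' hy' => ?_, fun x' hx' => ?_⟩
    · rw [hv] at hy'; exact absurd hy' (by simp)
    · rw [hv] at hx'
      rw [← Sum.inr.inj hx']
  rcases Sym2.eq_iff.1 he with ⟨h3, h4⟩ | ⟨h3, h4⟩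
  · subst h3; subst h4; exact ⟨_, hu', hv'⟩
  · subst h3; subst h4; exact ⟨_, hv', hu'⟩

lemma colr_none {u v : V} (h : (gr lab sel X).Adj u v) (hc : colr lab sel X s(u, v) = none) :
    (∃ x, lab u = Sum.inr x) ∧ ∃ x, lab v = Sum.inr x := by
  have h1 : ¬ ∃ i, canCol lab sel X s(u, v) i := by
    intro h2
    unfold colr at hc
    rw [dif_pos h2] at hc
    exact absurd hc (by simp)
  have h2 := h.2
  rcases hu : lab u with y | x <;> rcases hv : lab v with y' | x' <;> rw [hu, hv] at h2
  · exact absurd h2 id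
  · obtain ⟨i, hi⟩ := h2
    exact absurd ⟨i, u, v, y, x', rfl, hu, hv, hi⟩ h1
  · obtain ⟨i, hi⟩ := h2
    exact absurd ⟨i, v, u, y', x, Sym2.eq_swap, hv, hu, hi⟩ h1
  · exact ⟨⟨x, rfl⟩, ⟨x', rfl⟩⟩

lemma walk_some {i : I} {b : B} {u v : V} (p : (gr lab sel X).Walk u v)
    (hp : ∀ e ∈ p.edges, colr lab sel X e = some i) (hu : inPart lab sel X i b u) :
    ∀ w ∈ p.support, inPart lab sel X i b w := by
  induction p with
  | nil =>
    intro w hw
    rw [SimpleGraph.Walk.support_nil, List.mem_singleton] at hw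
    rw [hw]; exact hu
  | cons h q ih =>
    intro w hw
    rw [SimpleGraph.Walk.support_cons, List.mem_cons] at hw
    rw [SimpleGraph.Walk.edges_cons] at hp
    rcases hw with hw | hw
    · rw [hw]; exact hu
    · obtain ⟨b', h1, h2⟩ := colr_some (hp _ (List.mem_cons_self))
      have h3 : b' = b := inPart_unique h1 hu
      rw [h3] at h2
      exact ih (fun e he => hp e (List.mem_cons_of_mem _ he)) h2 w hw

lemma walk_none {u v : V} (p : (gr lab sel X).Walk u v)
    (hp : ∀ e ∈ p.edges, colr lab sel X e = none) (hu : ∃ x, lab u = Sum.inr x) :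
    ∀ w ∈ p.support, ∃ x, lab w = Sum.inr x := by
  induction p with
  | nil =>
    intro w hw
    rw [SimpleGraph.Walk.support_nil, List.mem_singleton] at hw
    rw [hw]; exact hu
  | cons h q ih =>
    intro w hw
    rw [SimpleGraph.Walk.support_cons, List.mem_cons] at hw
    rw [SimpleGraph.Walk.edges_cons] at hp
    rcases hw with hw | hw
    · rw [hw]; exact hu
    · exact ih (fun e he => hp e (List.mem_cons_of_mem _ he))
        (colr_none h (hp _ (List.mem_cons_self))).2 w hw

/-- a nontrivial monochromatic walk stays in one part -/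
lemma walk_part [Nonempty (I × B)] {u v : V} (p : (gr lab sel X).Walk u v) (hne : ¬ p.Nil)
    (c : Option I) (hp : ∀ e ∈ p.edges, colr lab sel X e = c) :
    ∃ q : I × B, ∀ w ∈ p.support, ∀ y, lab w = Sum.inl y → sel y q.1 = some q.2 := by
  cases p with
  | nil => exact absurd SimpleGraph.Walk.Nil.nil hne
  | cons h q =>
    have hp' := hp
    rw [SimpleGraph.Walk.edges_cons] at hp'
    have h1 := hp' _ (List.mem_cons_self)
    cases c with
    | none =>
      refine ⟨Classical.arbitrary _, fun w hw y hy => ?_⟩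
      obtain ⟨x, hx⟩ := walk_none _ hp (colr_none h h1).1 w hw
      rw [hy] at hx
      exact absurd hx (by simp)
    | some i =>
      obtain ⟨b, h2, -⟩ := colr_some h1
      exact ⟨(i, b), fun w hw y hy => (walk_some _ hp h2 w hw).1 y hy⟩

/-- the colouring with `r` colours -/
noncomputable def chi (lab : V → β ⊕ J) (sel : β → I → Option B) (X : I → J → B) {r : ℕ}
    (eI : Option I ≃ Fin r) (e : Sym2 V) : Fin r := eI (colr lab sel X e)

lemma mono_part [Nonempty (I × B)] {r : ℕ} (eI : Option I ≃ Fin r) {C : Finset V}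
    (hC : IsMonoCycle (gr lab sel X) (chi lab sel X eI) C) (h2 : ¬ C.card ≤ 1) :
    ∃ q : I × B, ∀ w ∈ C, ∀ y, lab w = Sum.inl y → sel y q.1 = some q.2 := by
  rcases hC with h | ⟨u, v, huv, h⟩ | ⟨i, v, p, hp, hi, h⟩
  · exact absurd h h2
  · obtain ⟨q, hq⟩ := walk_part (SimpleGraph.Walk.cons huv SimpleGraph.Walk.nil) (by simp)
      (colr lab sel X s(u, v)) (by simp)
    refine ⟨q, fun w hw y hy => hq w ?_ y hy⟩
    rcases (h w).1 hw with rfl | rfl <;> simp
  · obtain ⟨q, hq⟩ := walk_part p (fun hn => hp.not_nil hn) (eI.symm i) (fun e he => by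
      have := hi e he
      rw [← this, chi, Equiv.symm_apply_apply])
    exact ⟨q, fun w hw y hy => hq w ((h w).1 hw) y hy⟩

/-- lower bound for the number of cycles -/
lemma lt_of_partition [Nonempty (I × B)] [DecidableEq I] [DecidableEq B] {r s k : ℕ}
    (eI : Option I ≃ Fin r)
    (H : ∀ S : Finset (I × B), S.card ≤ s → ∃ v : Fin (s + 1) → V, Function.Injective v ∧
      ∀ d, ∃ y, lab (v d) = Sum.inl y ∧ ∀ i b, sel y i = some b → (i, b) ∉ S)
    (hk : HasCyclePartition (gr lab sel X) (chi lab sel X eI) k) : s < k := by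
  classical
  obtain ⟨C, hC, hdis, hcov⟩ := hk
  by_contra hlt
  push Not at hlt
  have hq : ∀ j, ∃ q : I × B, ¬ (C j).card ≤ 1 →
      ∀ w ∈ C j, ∀ y, lab w = Sum.inl y → sel y q.1 = some q.2 := by
    intro j
    by_cases h : (C j).card ≤ 1
    · exact ⟨Classical.arbitrary _, fun h' => absurd h h'⟩
    · obtain ⟨q, hq⟩ := mono_part eI (hC j) h
      exact ⟨q, fun _ => hq⟩
  choose q hq using hq
  obtain ⟨v, hv, hvy⟩ := H (Finset.univ.image q)
    (Finset.card_image_le.trans (by simpa using hlt))
  choose j hj using fun d => hcov (v d)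
  have hsmall : ∀ d, (C (j d)).card ≤ 1 := by
    intro d
    by_contra h
    obtain ⟨y, hy, hS⟩ := hvy d
    have h1 := hq (j d) h (v d) (hj d) y hy
    exact hS _ _ h1 (Finset.mem_image.2 ⟨j d, Finset.mem_univ _, rfl⟩)
  have hinj : Function.Injective j := by
    intro d d' hdd
    apply hv
    have h1 := hj d
    have h2 := hj d'
    rw [← hdd] at h2
    exact Finset.card_le_one.1 (hsmall d) _ h1 _ h2
  have := Fintype.card_le_of_injective j hinj
  simp only [Fintype.card_fin] at this
  omega

end Pool.Agent.Lib.MP_6df53f_co
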