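import Pool.Agent.Lib.MP_6df53f_co.Graph

/-!
# Large graphs
-/

open Finset

set_option linter.unusedSectionVars false

namespace Pool.Agent.Lib.MP_6df53f_co

lemma exists_partition {n r : ℕ} (G : SimpleGraph (Fin n)) (χ : Sym2 (Fin n) → Fin r) :
    HasCyclePartition G χ n := by
  refine ⟨fun j => {j}, fun j => Or.inl (by simp), fun j j' h => ?_, fun v => ⟨v, by simp⟩⟩
  simpa using h

variable {I J B : Type*} [Fintype I] [DecidableEq I] [Fintype J] [DecidableEq J] [Fintype B]
  [DecidableEq B]

/-- the selections that cover almost all points, with `s + 1` copies -/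
def Sel (X : I → J → B) (s : ℕ) (δ0 : ℝ) : Type _ :=
  {Y : I → Option B // (Nat.card {x : J // ∀ i, Y i ≠ some (X i x)} : ℝ) ≤
    δ0 * Fintype.card J} × Fin (s + 1)

instance (X : I → J → B) (s : ℕ) (δ0 : ℝ) : Finite (Sel X s δ0) := by
  unfold Sel; infer_instance

noncomputable instance (X : I → J → B) (s : ℕ) (δ0 : ℝ) : Fintype (Sel X s δ0) :=
  Fintype.ofFinite _

/-- the labels of the vertices of the graph with `n` vertices -/
noncomputable def labl (X : I → J → B) (s : ℕ) (δ0 : ℝ) (hM : 0 < Fintype.card J) (n : ℕ)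
    (v : Fin n) : Sel X s δ0 ⊕ J :=
  if h : v.val < Fintype.card (Sel X s δ0) then
    Sum.inl ((Fintype.equivFin (Sel X s δ0)).symm ⟨v.val, h⟩)
  else Sum.inr ((Fintype.equivFin J).symm
    ⟨(v.val - Fintype.card (Sel X s δ0)) % Fintype.card J, Nat.mod_lt _ hM⟩)

lemma deg_inr (X : I → J → B) (s : ℕ) (δ0 : ℝ) (hM : 0 < Fintype.card J) {n : ℕ} (v : Fin n)
    (hn : Fintype.card (Sel X s δ0) < n) {x : J} (hv : labl X s δ0 hM n v = Sum.inr x) :
    n - Fintype.card (Sel X s δ0) - 1 ≤
      ((gr (labl X s δ0 hM n) (fun y => y.1.1) X).neighborSet v).ncard := by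
  set b0 := Fintype.card (Sel X s δ0) with hb0
  have h1 : (((Finset.Ici (⟨b0, hn⟩ : Fin n)).erase v : Finset (Fin n)) : Set (Fin n)) ⊆
      (gr (labl X s δ0 hM n) (fun y => y.1.1) X).neighborSet v := by
    intro w hw
    rw [Finset.mem_coe, Finset.mem_erase, Finset.mem_Ici, Fin.le_def] at hw
    refine ⟨hw.1.symm, ?_⟩
    have h2 : ¬ w.val < Fintype.card (Sel X s δ0) := by
      have := hw.2; simp only at this; omega
    rw [hv]
    unfold labl
    rw [dif_neg h2]
    trivial
  calc n - b0 - 1 = (Finset.Ici (⟨b0, hn⟩ : Fin n)).card - 1 := by rw [Fin.card_Ici]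
    _ ≤ ((Finset.Ici (⟨b0, hn⟩ : Fin n)).erase v).card := Finset.pred_card_le_card_erase
    _ = (((Finset.Ici (⟨b0, hn⟩ : Fin n)).erase v : Finset (Fin n)) : Set (Fin n)).ncard :=
      (Set.ncard_coe_finset _).symm
    _ ≤ _ := Set.ncard_le_ncard h1 (Set.toFinite _)

lemma deg_inl (X : I → J → B) (s : ℕ) (δ0 : ℝ) (hM : 0 < Fintype.card J) {n : ℕ} (v : Fin n)
    {y : Sel X s δ0} (hv : labl X s δ0 hM n v = Sum.inl y) :
    Nat.card {x : J // ¬ ∀ i, y.1.1 i ≠ some (X i x)} *
      ((n - Fintype.card (Sel X s δ0)) / Fintype.card J) ≤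
      ((gr (labl X s δ0 hM n) (fun y => y.1.1) X).neighborSet v).ncard := by
  set b0 := Fintype.card (Sel X s δ0) with hb0
  set M := Fintype.card J with hMdef
  set q := (n - b0) / M with hq
  have hqM : q * M ≤ n - b0 := Nat.div_mul_le_self _ _
  have hval : ∀ (x : J) (t : Fin q), b0 + (t.val * M + (Fintype.equivFin J x).val) < n := by
    intro x t
    have h1 := (Fintype.equivFin J x).2
    have h2 : (t.val + 1) * M ≤ q * M := Nat.mul_le_mul_right _ t.2
    have h3 : t.val * M + M = (t.val + 1) * M := by ring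
    have h4 : 0 < q := lt_of_le_of_lt (Nat.zero_le _) t.2
    have h5 : 0 < q * M := Nat.mul_pos h4 hM
    omega
  have hlab : ∀ (x : J) (t : Fin q), labl X s δ0 hM n ⟨_, hval x t⟩ = Sum.inr x := by
    intro x t
    unfold labl
    rw [dif_neg (Nat.not_lt.2 (Nat.le_add_right _ _))]
    congr 1
    rw [Equiv.symm_apply_eq]
    apply Fin.ext
    simp only
    rw [Nat.add_sub_cancel_left, Nat.mul_comm, Nat.mul_add_mod]
    exact Nat.mod_eq_of_lt (Fintype.equivFin J x).2
  let g : {x : J // ¬ ∀ i, y.1.1 i ≠ some (X i x)} × Fin q →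
      (gr (labl X s δ0 hM n) (fun y => y.1.1) X).neighborSet v := fun z =>
    ⟨⟨_, hval z.1.1 z.2⟩, by
      refine ⟨fun h => ?_, ?_⟩
      · have h1 := hlab z.1.1 z.2
        rw [← h, hv] at h1
        exact absurd h1 (by simp)
      · rw [hv, hlab]
        have := z.1.2
        push Not at this
        exact this⟩
  have hg : Function.Injective g := by
    rintro ⟨x, t⟩ ⟨x', t'⟩ h
    have h1 : b0 + (t.val * M + (Fintype.equivFin J x.1).val) =
        b0 + (t'.val * M + (Fintype.equivFin J x'.1).val) := by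
      have := congrArg (fun z => (z.1 : Fin n).val) h
      simpa [g] using this
    have h2 := (Fintype.equivFin J x.1).2
    have h3 := (Fintype.equivFin J x'.1).2
    have h4 : t.val * M + (Fintype.equivFin J x.1).val =
        t'.val * M + (Fintype.equivFin J x'.1).val := by omega
    have h5 : (Fintype.equivFin J x.1).val = (Fintype.equivFin J x'.1).val := by
      have e1 : (t.val * M + (Fintype.equivFin J x.1).val) % M =
          (Fintype.equivFin J x.1).val := by
        rw [Nat.mul_comm, Nat.mul_add_mod]; exact Nat.mod_eq_of_lt h2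
      have e2 : (t'.val * M + (Fintype.equivFin J x'.1).val) % M =
          (Fintype.equivFin J x'.1).val := by
        rw [Nat.mul_comm, Nat.mul_add_mod]; exact Nat.mod_eq_of_lt h3
      rw [← e1, h4, e2]
    have h6 : t.val = t'.val := by
      have : t.val * M = t'.val * M := by omega
      exact Nat.eq_of_mul_eq_mul_right hM this
    have h7 : x.1 = x'.1 := (Fintype.equivFin J).injective (Fin.ext h5)
    exact Prod.ext (Subtype.ext h7) (Fin.ext h6)
  have h1 := Nat.card_le_card_of_injective g hg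
  rw [Nat.card_prod, Nat.card_eq_fintype_card (α := Fin q), Fintype.card_fin,
    Nat.card_coe_set_eq] at h1
  exact h1

/-- lower bound for `cpr` from a robust covering structure -/
theorem le_cpr [Nonempty I] [Nonempty B] [Nonempty J] (X : I → J → B) (s : ℕ) {δ0 δ : ℝ}
    (hδ : δ0 < δ) (hδ0 : 0 ≤ δ0) (hδ1 : δ0 ≤ 1)
    (H : ∀ S : Finset (I × B), S.card ≤ s → ∃ Y : I → Option B,
      (∀ i b, Y i = some b → (i, b) ∉ S) ∧
      (Nat.card {x : J // ∀ i, Y i ≠ some (X i x)} : ℝ) ≤ δ0 * Fintype.card J) :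
    (((s + 1 : ℕ) : ℝ) : EReal) ≤ cpr (Fintype.card I + 1) δ := by
  have hM : 0 < Fintype.card J := Fintype.card_pos
  set M := Fintype.card J with hMdef
  set b0 := Fintype.card (Sel X s δ0) with hb0
  obtain ⟨n0, hn0⟩ : ∃ n0 : ℕ, ((b0 : ℝ) + M + 1) / (δ - δ0) ≤ n0 := exists_nat_ge _
  unfold cpr
  refine Filter.le_limsup_of_frequently_le (Filter.Eventually.frequently ?_)
  filter_upwards [Filter.eventually_ge_atTop (n0 + b0 + M + 1)] with n hn
  have hb0n : b0 < n := by omega
  have hnR : ((b0 : ℝ) + M + 1) ≤ (δ - δ0) * n := by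
    have h1 : (n0 : ℝ) ≤ n := by
      have : n0 ≤ n := by omega
      exact_mod_cast this
    have h2 := hn0.trans h1
    rw [div_le_iff₀ (by linarith)] at h2
    linarith
  set lab := labl X s δ0 hM n with hlab
  have heI : Fintype.card (Option I) = Fintype.card I + 1 := Fintype.card_option
  let eI : Option I ≃ Fin (Fintype.card I + 1) := Fintype.equivFinOfCardEq heI
  refine le_iSup_of_le (gr lab (fun y => y.1.1) X) (le_iSup_of_le
    (chi lab (fun y => y.1.1) X eI) (le_iSup_of_le ?_ ?_))
  · intro v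
    rcases hv : lab v with y | x
    · have h1 := deg_inl X s δ0 hM v hv
      set q := (n - b0) / M with hq
      have h2 : (1 - δ0) * M ≤ (Nat.card {x : J // ¬ ∀ i, y.1.1 i ≠ some (X i x)} : ℝ) := by
        have h3 := y.1.2
        have h4 : Nat.card {x : J // ∀ i, y.1.1 i ≠ some (X i x)} +
            Nat.card {x : J // ¬ ∀ i, y.1.1 i ≠ some (X i x)} = M := by
          classical
          rw [hMdef, Nat.card_eq_fintype_card, Nat.card_eq_fintype_card,
            Fintype.card_subtype_compl]
          have := Fintype.card_subtype_le (fun x : J => ∀ i, y.1.1 i ≠ some (X i x))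
          omega
        have h5 : (Nat.card {x : J // ∀ i, y.1.1 i ≠ some (X i x)} : ℝ) +
            (Nat.card {x : J // ¬ ∀ i, y.1.1 i ≠ some (X i x)} : ℝ) = M := by
          exact_mod_cast h4
        linarith
      have h3 : ((n : ℝ) - b0 - M) ≤ M * q := by
        have h4 : n - b0 < M * q + M := by
          have e1 : M * q + (n - b0) % M = n - b0 := Nat.div_add_mod (n - b0) M
          have e2 : (n - b0) % M < M := Nat.mod_lt (n - b0) hM
          omega
        have h5 : n ≤ M * q + M + b0 := by omega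
        have h6 : (n : ℝ) ≤ M * q + M + b0 := by exact_mod_cast h5
        linarith
      have h4 : ((Nat.card {x : J // ¬ ∀ i, y.1.1 i ≠ some (X i x)} * q : ℕ) : ℝ) ≤
          ((gr lab (fun y => y.1.1) X).neighborSet v).ncard := by exact_mod_cast h1
      push_cast at h4
      calc (1 - δ) * n ≤ (1 - δ0) * ((n : ℝ) - b0 - M) := by
            have : (1 - δ0) * ((b0 : ℝ) + M) ≤ b0 + M := by
              have h7 : (0 : ℝ) ≤ b0 + M := by positivity
              nlinarith
            nlinarith
        _ ≤ (1 - δ0) * (M * q) := mul_le_mul_of_nonneg_left h3 (by linarith)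
        _ = ((1 - δ0) * M) * q := by ring
        _ ≤ (Nat.card {x : J // ¬ ∀ i, y.1.1 i ≠ some (X i x)} : ℝ) * q :=
            mul_le_mul_of_nonneg_right h2 (by positivity)
        _ ≤ _ := h4
    · have h1 := deg_inr X s δ0 hM v hb0n hv
      have h2 : ((n - b0 - 1 : ℕ) : ℝ) ≤
          ((gr lab (fun y => y.1.1) X).neighborSet v).ncard := by exact_mod_cast h1
      refine le_trans ?_ h2
      have h3 : ((n - b0 - 1 : ℕ) : ℝ) = (n : ℝ) - b0 - 1 := by
        rw [Nat.cast_sub (by omega), Nat.cast_sub (by omega)]; simp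
      rw [h3]
      have hδpos : 0 < δ := by linarith
      have h4 : (δ - δ0) * (n : ℝ) ≤ δ * n := by
        have : (0 : ℝ) ≤ n := by positivity
        nlinarith
      have h5 : (0 : ℝ) ≤ M := by positivity
      linarith
  · rw [EReal.coe_le_coe_iff, Nat.cast_le]
    have hne : {k | HasCyclePartition (gr lab (fun y => y.1.1) X)
        (chi lab (fun y => y.1.1) X eI) k}.Nonempty := ⟨n, exists_partition _ _⟩
    have hmem := Nat.sInf_mem hne
    refine lt_of_partition (V := Fin n) eI (fun S hS => ?_) hmem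
    obtain ⟨Y, hY1, hY2⟩ := H S hS
    have hle : ∀ d : Fin (s + 1),
        (Fintype.equivFin (Sel X s δ0) (⟨Y, hY2⟩, d)).val < n := fun d =>
      (Fintype.equivFin (Sel X s δ0) (⟨Y, hY2⟩, d)).2.trans hb0n
    refine ⟨fun d => ⟨_, hle d⟩, fun d d' h => ?_, fun d => ⟨(⟨Y, hY2⟩, d), ?_, hY1⟩⟩
    · have h1 : (Fintype.equivFin (Sel X s δ0) (⟨Y, hY2⟩, d)).val =
          (Fintype.equivFin (Sel X s δ0) (⟨Y, hY2⟩, d')).val := by
        simpa using h
      have h2 := (Fintype.equivFin (Sel X s δ0)).injective (Fin.ext h1)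
      exact (Prod.ext_iff.1 h2).2
    · rw [hlab]
      unfold labl
      rw [dif_pos (Fintype.equivFin (Sel X s δ0) (⟨Y, hY2⟩, d)).2]
      exact congrArg Sum.inl (Equiv.symm_apply_apply _ _)

end Pool.Agent.Lib.MP_6df53f_co
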