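import Pool.Agent.Lib.MP_6df53f_co.Prob

/-!
# Second moments

For a sunflower of `K`-sets of good points the number of its members which stay uncovered is
concentrated.
-/

open Finset

set_option linter.unusedSectionVars false

namespace Pool.Agent.Lib.MP_6df53f_co

variable {ι A B : Type*} [Fintype ι] [DecidableEq ι] [Fintype A] [DecidableEq A] [Fintype B]
  [DecidableEq B] {T : ℕ} {φ : A → ι → B} {s : ℕ}

/-- `U` behaves like a random set of density `η` with independent points, up to `ε` -/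
structure Phase.Good (P : Phase φ T s) (K : ℕ) (η ε : ℝ) : Prop where
  eta_pos : 0 < η
  eta_le : η ≤ 1
  eps_nonneg : 0 ≤ ε
  eps_le : ε ≤ 1
  upper : ∀ D ⊆ P.good, D.card ≤ 2 * K → P.pr D ≤ (1 + ε) * η ^ D.card
  lower : ∀ D ⊆ P.good, D.card = K → (1 - ε) * η ^ K ≤ P.pr D

lemma Phase.good_of (P : Phase φ T s) {K p : ℕ} (h : Design K p φ) (hp : 1 < p) (hK : K < p)
    {ε : ℝ} (hε0 : 0 ≤ ε) (hε1 : ε ≤ 1)
    (h1 : 1 ≤ (1 + ε) * (1 - 1 / (p : ℝ)) ^ (T * (2 * K) ^ 2))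
    (h2 : (1 - ε) * ((1 - 1 / (p : ℝ)) ^ (T * s)) ^ K ≤ (1 - 1 / ((p : ℝ) - K)) ^ (T * (K * s))) :
    P.Good K ((1 - 1 / (p : ℝ)) ^ (T * s)) ε := by
  have hp0 : (0 : ℝ) < p := by positivity
  have hp1 : (1 : ℝ) < p := by exact_mod_cast hp
  have hq0 : 0 < 1 - 1 / (p : ℝ) := by
    rw [sub_pos, div_lt_one hp0]; exact hp1
  have hq1 : 1 - 1 / (p : ℝ) ≤ 1 := by
    have : 0 < 1 / (p : ℝ) := by positivity
    linarith
  refine ⟨by positivity, pow_le_one₀ hq0.le hq1, hε0, hε1, fun D hD hDK => ?_, fun D hD hDK => ?_⟩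
  · have h3 := P.pr_le h hp hD
    have h4 : (1 - 1 / (p : ℝ)) ^ (T * (2 * K) ^ 2) ≤ (1 - 1 / (p : ℝ)) ^ (T * D.card ^ 2) :=
      pow_le_pow_of_le_one hq0.le hq1 (Nat.mul_le_mul_left _ (Nat.pow_le_pow_left hDK 2))
    have h5 : 1 ≤ (1 + ε) * (1 - 1 / (p : ℝ)) ^ (T * D.card ^ 2) :=
      h1.trans (mul_le_mul_of_nonneg_left h4 (by linarith))
    calc P.pr D ≤ P.pr D * ((1 + ε) * (1 - 1 / (p : ℝ)) ^ (T * D.card ^ 2)) :=
          le_mul_of_one_le_right (P.pr_nonneg D) h5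
      _ = (1 + ε) * (P.pr D * (1 - 1 / (p : ℝ)) ^ (T * D.card ^ 2)) := by ring
      _ ≤ _ := mul_le_mul_of_nonneg_left h3 (by linarith)
  · have h3 := P.le_pr h hK hD hDK.le
    rw [hDK] at h3
    exact h2.trans h3

lemma avg_count {κ : Type*} (P : Phase φ T s) (I : Finset κ) (Df : κ → Finset ι) :
    avg (fun f => (((I.filter fun i => Df i ⊆ P.U f).card : ℕ) : ℝ)) = ∑ i ∈ I, P.pr (Df i) := by
  unfold Phase.pr
  rw [← avg_sum]
  congr 1
  funext f
  rw [Finset.sum_boole]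

lemma avg_count_sq {κ : Type*} (P : Phase φ T s) (I : Finset κ) (Df : κ → Finset ι) :
    avg (fun f => (((I.filter fun i => Df i ⊆ P.U f).card : ℕ) : ℝ) ^ 2) =
      ∑ i ∈ I, ∑ j ∈ I, P.pr (Df i ∪ Df j) := by
  unfold Phase.pr
  have h1 : ∀ f : Fin T × A → B, (((I.filter fun i => Df i ⊆ P.U f).card : ℕ) : ℝ) ^ 2 =
      ∑ i ∈ I, ∑ j ∈ I, if Df i ∪ Df j ⊆ P.U f then 1 else 0 := by
    intro f
    rw [← Finset.sum_boole, sq, Finset.sum_mul_sum]
    refine Finset.sum_congr rfl fun i _ => Finset.sum_congr rfl fun j _ => ?_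
    by_cases hi : Df i ⊆ P.U f <;> by_cases hj : Df j ⊆ P.U f <;>
      simp [hi, hj, Finset.union_subset_iff]
  simp_rw [h1]
  rw [avg_sum]
  refine Finset.sum_congr rfl fun i _ => ?_
  rw [avg_sum]

/-- second moment of a sunflower -/
lemma Phase.Good.sunflower {κ : Type*} [DecidableEq κ] {P : Phase φ T s} {K : ℕ} {η ε : ℝ}
    (hP : P.Good K η ε) (I : Finset κ) (Df : κ → Finset ι) (D0 : Finset ι) (c0 : ℕ)
    (hc : D0.card = c0) (hcK : c0 ≤ K) (hD0g : D0 ⊆ P.good)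
    (hg : ∀ i ∈ I, Df i ⊆ P.good) (hcard : ∀ i ∈ I, (Df i).card = K) (hD0 : ∀ i ∈ I, D0 ⊆ Df i)
    (hun : ∀ i ∈ I, ∀ j ∈ I, i ≠ j → (Df i ∪ Df j).card = 2 * K - c0) :
    avg (fun f => (if D0 ⊆ P.U f then (1 : ℝ) else 0) *
      ((((I.filter fun i => Df i ⊆ P.U f).card : ℕ) : ℝ) - I.card * η ^ (K - c0)) ^ 2) ≤
      4 * ε * (I.card : ℝ) ^ 2 * η ^ (K - c0) * η ^ K + (1 + ε) * I.card * η ^ K := by
  have hη := hP.eta_pos
  have hε := hP.eps_nonneg
  set e1 := η ^ (K - c0) with he1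
  have he1pos : 0 < e1 := by positivity
  have hK : η ^ K = e1 * η ^ c0 := by rw [he1, ← pow_add]; congr 1; omega
  have h2K : η ^ (2 * K - c0) = e1 * η ^ K := by rw [he1, ← pow_add]; congr 1; omega
  set X : (Fin T × A → B) → ℝ := fun f => (((I.filter fun i => Df i ⊆ P.U f).card : ℕ) : ℝ)
    with hX
  set m : ℝ := (I.card : ℝ) with hm
  have hm0 : 0 ≤ m := by positivity
  -- expansion
  have h1 : ∀ f, (if D0 ⊆ P.U f then (1 : ℝ) else 0) * (X f - m * e1) ^ 2 =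
      X f ^ 2 + (-(2 * (m * e1)) * X f + (m * e1) ^ 2 * (if D0 ⊆ P.U f then (1 : ℝ) else 0)) := by
    intro f
    by_cases hf : D0 ⊆ P.U f
    · rw [if_pos hf]; ring
    · rw [if_neg hf]
      have : X f = 0 := by
        simp only [hX]
        rw [Finset.filter_false_of_mem]
        · simp
        · intro i hi hi'
          exact hf ((hD0 i hi).trans hi')
      rw [this]; ring
  have h2 : avg (fun f => (if D0 ⊆ P.U f then (1 : ℝ) else 0) * (X f - m * e1) ^ 2) =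
      avg (fun f => X f ^ 2) + (-(2 * (m * e1)) * avg X + (m * e1) ^ 2 * P.pr D0) := by
    simp_rw [h1]
    rw [avg_add, avg_add, avg_mul_left, avg_mul_left]
    rfl
  have hX2 : avg (fun f => X f ^ 2) ≤ m ^ 2 * ((1 + ε) * (e1 * η ^ K)) + m * ((1 + ε) * η ^ K) := by
    rw [hX, avg_count_sq]
    have h3 : ∀ i ∈ I, ∑ j ∈ I, P.pr (Df i ∪ Df j) ≤
        m * ((1 + ε) * (e1 * η ^ K)) + (1 + ε) * η ^ K := by
      intro i hi
      rw [← Finset.add_sum_erase _ _ hi]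
      have h4 : P.pr (Df i ∪ Df i) ≤ (1 + ε) * η ^ K := by
        rw [Finset.union_self]
        have := hP.upper (Df i) (hg i hi) (by rw [hcard i hi]; omega)
        rwa [hcard i hi] at this
      have h5 : ∑ j ∈ I.erase i, P.pr (Df i ∪ Df j) ≤ m * ((1 + ε) * (e1 * η ^ K)) := by
        calc ∑ j ∈ I.erase i, P.pr (Df i ∪ Df j)
            ≤ ∑ j ∈ I.erase i, (1 + ε) * (e1 * η ^ K) := by
              refine Finset.sum_le_sum fun j hj => ?_
              have hj' := Finset.mem_of_mem_erase hj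
              have hcd := hun i hi j hj' (Finset.ne_of_mem_erase hj).symm
              have := hP.upper (Df i ∪ Df j) (Finset.union_subset (hg i hi) (hg j hj'))
                (by rw [hcd]; omega)
              rwa [hcd, h2K] at this
          _ = ((I.erase i).card : ℝ) * ((1 + ε) * (e1 * η ^ K)) := by
              rw [Finset.sum_const, nsmul_eq_mul]
          _ ≤ m * ((1 + ε) * (e1 * η ^ K)) := by
              refine mul_le_mul_of_nonneg_right ?_ (by positivity)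
              rw [hm]
              exact_mod_cast Finset.card_le_card (Finset.erase_subset i I)
      linarith
    calc ∑ i ∈ I, ∑ j ∈ I, P.pr (Df i ∪ Df j)
        ≤ ∑ i ∈ I, (m * ((1 + ε) * (e1 * η ^ K)) + (1 + ε) * η ^ K) := Finset.sum_le_sum h3
      _ = m * (m * ((1 + ε) * (e1 * η ^ K)) + (1 + ε) * η ^ K) := by
          rw [Finset.sum_const, nsmul_eq_mul]
      _ = _ := by ring
  have hX1 : m * ((1 - ε) * η ^ K) ≤ avg X := by
    rw [hX, avg_count]
    calc m * ((1 - ε) * η ^ K) = ∑ i ∈ I, (1 - ε) * η ^ K := by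
          rw [Finset.sum_const, nsmul_eq_mul]
      _ ≤ _ := Finset.sum_le_sum fun i hi => hP.lower _ (hg i hi) (hcard i hi)
  have hX0 : P.pr D0 ≤ (1 + ε) * η ^ c0 := by
    have := hP.upper D0 hD0g (by omega)
    rwa [hc] at this
  rw [h2]
  have h6 : -(2 * (m * e1)) * avg X ≤ -(2 * (m * e1)) * (m * ((1 - ε) * η ^ K)) := by
    have : 0 ≤ 2 * (m * e1) := by positivity
    nlinarith
  have h7 : (m * e1) ^ 2 * P.pr D0 ≤ (m * e1) ^ 2 * ((1 + ε) * η ^ c0) :=
    mul_le_mul_of_nonneg_left hX0 (by positivity)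
  have h8 : (m * e1) ^ 2 * ((1 + ε) * η ^ c0) = m ^ 2 * e1 * ((1 + ε) * η ^ K) := by
    rw [hK]; ring
  nlinarith

end Pool.Agent.Lib.MP_6df53f_co
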