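import Pool.Agent.Lib.MP_6df53f_co.PhaseTwo

/-!
# Choice of the parameters
-/

open Finset

set_option maxHeartbeats 2000000

namespace Pool.Agent.Lib.MP_6df53f_co

/-- the transversal design of lines over `ZMod p` -/
def lineMap (K p : ℕ) (a : ZMod p) (x : Fin K × ZMod p) : ZMod p := x.2 - (x.1 : ℕ) * a

lemma lineMap_design {K p : ℕ} [hp : Fact p.Prime] (hK : K < p) : Design K p (lineMap K p) where
  cardA := ZMod.card p
  cardB := ZMod.card p
  codeg := by
    intro x y hxy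
    rw [Finset.card_le_one]
    intro a ha a' ha'
    have h1 := (Finset.mem_filter.1 ha).2
    have h2 := (Finset.mem_filter.1 ha').2
    simp only [lineMap] at h1 h2
    have h3 : (((x.1 : ℕ) : ZMod p) - ((y.1 : ℕ) : ZMod p)) * (a - a') = 0 := by
      linear_combination h2 - h1
    rcases mul_eq_zero.1 h3 with h4 | h4
    · exfalso
      have h5 : ((x.1 : ℕ) : ZMod p) = ((y.1 : ℕ) : ZMod p) := sub_eq_zero.1 h4
      rw [ZMod.natCast_eq_natCast_iff] at h5
      have h6 : (x.1 : ℕ) = y.1 :=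
        Nat.ModEq.eq_of_lt_of_lt h5 (x.1.2.trans hK) (y.1.2.trans hK)
      have h7 : x.1 = y.1 := Fin.ext h6
      apply hxy
      refine Prod.ext h7 ?_
      rw [h7] at h1
      exact sub_left_injective h1
    · exact sub_eq_zero.1 h4
  fib := by
    intro a b
    have hcard : (univ : Finset (Fin K)).card = K := by simp
    refine Eq.trans (Eq.symm ?_) hcard
    refine Finset.card_bij (fun k _ => (k, b + (k : ℕ) * a)) ?_ ?_ ?_
    · intro k _
      refine Finset.mem_filter.2 ⟨mem_univ _, ?_⟩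
      simp [lineMap]
    · intro k _ k' _ h
      exact (Prod.ext_iff.1 h).1
    · rintro ⟨k, y⟩ h
      refine ⟨k, mem_univ _, ?_⟩
      have := (Finset.mem_filter.1 h).2
      simp only [lineMap] at this
      rw [← this]
      simp

/-- the exponent reached with `T` copies in the first phase -/
noncomputable def lam (T : ℕ) : ℝ := 3 / 64 * Real.exp (T / 2)

lemma lam_pos (T : ℕ) : 0 < lam T := by unfold lam; positivity

theorem cover_large (T : ℕ) : ∃ K : ℕ, 1 ≤ K ∧ ∃ p0 : ℕ, ∀ p : ℕ, p0 ≤ p → p.Prime →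
    ∃ φ : ZMod p → (Fin K × ZMod p) → ZMod p,
      ∀ S : Finset ((Option (Fin T) × ZMod p) × ZMod p), 64 * S.card ≤ p ^ 2 →
      ∃ Y : Option (Fin T) × ZMod p → Option (ZMod p), (∀ i b, Y i = some b → (i, b) ∉ S) ∧
        (Nat.card {x : Fin K × ZMod p // ∀ i, Y i ≠ some (φ i.2 x)} : ℝ) ≤
          3 * Real.exp (-lam T) * (K * p) := by
  set β := Real.exp (-lam T) with hβ
  have hβ0 : 0 < β := Real.exp_pos _
  have hβ1 : β < 1 := by
    rw [hβ, Real.exp_lt_one_iff]; exact neg_neg_of_pos (lam_pos T)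
  obtain ⟨K, hK⟩ : ∃ K : ℕ, 1 / (8 * β) ≤ K := exists_nat_ge _
  have hK1 : 1 ≤ K := by
    by_contra h
    have : K = 0 := by omega
    rw [this, Nat.cast_zero] at hK
    have : 0 < 1 / (8 * β) := by positivity
    linarith
  have hKβ : 1 / 8 ≤ β * K := by
    rw [div_le_iff₀ (by positivity)] at hK
    linarith
  refine ⟨K, hK1, ?_⟩
  set W : ℝ := (4 : ℝ) ^ (T * K) with hW
  have hW1 : 1 ≤ W := one_le_pow₀ (by norm_num)
  set ε : ℝ := β / (2 * (16 + 43 * W)) with hε
  have hε0 : 0 < ε := by positivity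
  have hε1 : ε ≤ 1 := by
    rw [hε, div_le_one (by positivity)]
    linarith
  have hεβ : 16 * ε + 43 * W * ε = β / 2 := by
    rw [hε]; field_simp
  obtain ⟨p0, hp0⟩ : ∃ p0 : ℕ, max (max (2 * ((T * (2 * K) ^ 2 : ℕ) : ℝ) / ε)
    (4 * (T * K ^ 2 : ℕ) / ε)) ((22 * W + 22 * W * W) / (β / 2)) ≤ p0 := exists_nat_ge _
  refine ⟨p0 + 2 * K + 2, fun p hp hpp => ?_⟩
  have : Fact p.Prime := ⟨hpp⟩
  have hKp : K < p := by omega
  have hp1 : 1 < p := hpp.one_lt
  have hpR : (0 : ℝ) < p := by positivity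
  have hp2R : (2 : ℝ) ≤ p := by exact_mod_cast hp1
  have hp0R : (p0 : ℝ) ≤ p := by
    have : p0 ≤ p := by omega
    exact_mod_cast this
  have hc1 : 2 * ((T * (2 * K) ^ 2 : ℕ) : ℝ) / ε ≤ p :=
    (((le_max_left _ _).trans (le_max_left _ _)).trans hp0).trans hp0R
  have hc2 : 4 * (T * K ^ 2 : ℕ) / ε ≤ p :=
    (((le_max_right _ _).trans (le_max_left _ _)).trans hp0).trans hp0R
  have hc3 : (22 * W + 22 * W * W) / (β / 2) ≤ p := ((le_max_right _ _).trans hp0).trans hp0R
  have hdes := lineMap_design (K := K) (p := p) hKp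
  refine ⟨lineMap K p, fun S hS => ?_⟩
  set s := (p + 1) / 2 with hs
  have hs1 : p ≤ 2 * s := by omega
  have hs2 : 2 * s ≤ p + 1 := by omega
  have hs1R : (p : ℝ) ≤ 2 * s := by exact_mod_cast hs1
  have hs2R : 2 * (s : ℝ) ≤ p + 1 := by exact_mod_cast hs2
  have hsp : (s : ℝ) ≤ p := by linarith
  have hq0 : 0 < 1 - 1 / (p : ℝ) := by
    rw [sub_pos, div_lt_one hpR]; linarith
  have hq1 : 1 - 1 / (p : ℝ) ≤ 1 := by
    have : 0 < 1 / (p : ℝ) := by positivity
    linarith
  set η := (1 - 1 / (p : ℝ)) ^ (T * s) with hη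
  have hη0 : 0 < η := by positivity
  have hbern : ∀ n : ℕ, 1 - (n : ℝ) / p ≤ (1 - 1 / (p : ℝ)) ^ n := by
    intro n
    have := one_add_mul_le_pow (a := -(1 / (p : ℝ))) (by
      have : 1 / (p : ℝ) ≤ 1 := by rw [div_le_one hpR]; linarith
      linarith) n
    calc 1 - (n : ℝ) / p = 1 + (n : ℝ) * (-(1 / (p : ℝ))) := by ring
      _ ≤ _ := this
      _ = _ := by ring
  -- bounds for eta
  have hηle : η ≤ Real.exp (-(T / 2)) := by
    have h1 : 1 - 1 / (p : ℝ) ≤ Real.exp (-(1 / p)) := by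
      have := Real.add_one_le_exp (-(1 / (p : ℝ)))
      linarith
    calc η ≤ (Real.exp (-(1 / p))) ^ (T * s) := pow_le_pow_left₀ hq0.le h1 _
      _ = Real.exp (-(T * s / p)) := by
        rw [← Real.exp_nat_mul]; congr 1; push_cast; ring
      _ ≤ Real.exp (-(T / 2)) := by
        rw [Real.exp_le_exp, neg_le_neg_iff]
        have h2 : (1 : ℝ) / 2 ≤ s / p := by
          rw [le_div_iff₀ hpR]; linarith
        calc (T : ℝ) / 2 = T * (1 / 2) := by ring
          _ ≤ T * (s / p) := mul_le_mul_of_nonneg_left h2 (by positivity)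
          _ = T * s / p := by ring
  have hηge : 1 / 4 ^ T ≤ η := by
    have h1 : (1 : ℝ) / 4 ≤ (1 - 1 / (p : ℝ)) ^ s := by
      refine le_trans ?_ (hbern s)
      have : (s : ℝ) / p ≤ 3 / 4 := by
        rw [div_le_iff₀ hpR]; linarith
      linarith
    calc (1 : ℝ) / 4 ^ T = (1 / 4) ^ T := by rw [one_div_pow]
      _ ≤ ((1 - 1 / (p : ℝ)) ^ s) ^ T := pow_le_pow_left₀ (by norm_num) h1 _
      _ = η := by rw [hη, ← pow_mul, mul_comm]
  have hηK : 1 / η ^ K ≤ W := by
    have h1 : 1 / η ≤ 4 ^ T := by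
      rw [div_le_iff₀ hη0]
      rw [div_le_iff₀ (by positivity)] at hηge
      linarith
    calc 1 / η ^ K = (1 / η) ^ K := by rw [one_div_pow]
      _ ≤ (4 ^ T) ^ K := pow_le_pow_left₀ (by positivity) h1 _
      _ = W := by rw [hW, ← pow_mul]
  have hη1 : η ≤ 1 := pow_le_one₀ hq0.le hq1
  have hηK1 : 1 / η ^ (K - 1) ≤ W := by
    refine le_trans ?_ hηK
    refine one_div_le_one_div_of_le (by positivity) ?_
    exact pow_le_pow_of_le_one hη0.le hη1 (by omega)
  -- condition 1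
  have h1 : 1 ≤ (1 + ε) * (1 - 1 / (p : ℝ)) ^ (T * (2 * K) ^ 2) := by
    have h3 := hbern (T * (2 * K) ^ 2)
    rw [div_le_iff₀ hε0] at hc1
    have h4 : ((T * (2 * K) ^ 2 : ℕ) : ℝ) / p ≤ ε / 2 := by
      rw [div_le_iff₀ hpR]; linarith
    have h5 : 1 ≤ (1 + ε) * (1 - ε / 2) := by nlinarith
    refine h5.trans (mul_le_mul_of_nonneg_left (by linarith) (by linarith))
  -- condition 2
  have h2 : (1 - ε) * ((1 - 1 / (p : ℝ)) ^ (T * s)) ^ K ≤
      (1 - 1 / ((p : ℝ) - K)) ^ (T * (K * s)) := by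
    have hKp2 : 2 * (K : ℝ) + 2 ≤ p := by
      have : 2 * K + 2 ≤ p := by omega
      exact_mod_cast this
    have hK0R : (0 : ℝ) ≤ K := by positivity
    have hpK : (p : ℝ) / 2 ≤ p - K := by linarith
    have hp1R : (p : ℝ) / 2 ≤ p - 1 := by linarith
    have h3 : 1 - 1 / ((p : ℝ) - K) =
        (1 - 1 / (p : ℝ)) * (1 + -(K / (((p : ℝ) - K) * (p - 1)))) := by
      have e1 : (p : ℝ) - K ≠ 0 := by linarith
      have e2 : (p : ℝ) - 1 ≠ 0 := by linarith
      field_simp
      ring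
    have h4 : (K : ℝ) / (((p : ℝ) - K) * (p - 1)) ≤ 4 * K / (p * p) := by
      have hm := mul_le_mul hpK hp1R (by positivity) (by linarith)
      have hm0 : 0 < ((p : ℝ) - K) * (p - 1) := mul_pos (by linarith) (by linarith)
      rw [div_le_div_iff₀ hm0 (by positivity)]
      have : (p : ℝ) * p ≤ 4 * ((p - K) * (p - 1)) := by linarith
      calc (K : ℝ) * (p * p) ≤ K * (4 * ((p - K) * (p - 1))) :=
            mul_le_mul_of_nonneg_left this hK0R
        _ = 4 * K * (((p : ℝ) - K) * (p - 1)) := by ring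
    have h5 : 4 * (K : ℝ) / (p * p) ≤ 2 := by
      rw [div_le_iff₀ (by positivity)]
      have : (4 : ℝ) * K ≤ 2 * p := by linarith
      have h9 : (2 : ℝ) * p ≤ 2 * (p * p) := by nlinarith
      linarith
    rw [h3, mul_pow, ← pow_mul, show T * s * K = T * (K * s) by ring, mul_comm (1 - ε)]
    refine mul_le_mul_of_nonneg_left ?_ (by positivity)
    have h6 := one_add_mul_le_pow (a := -((K : ℝ) / (((p : ℝ) - K) * (p - 1)))) (by linarith)
      (T * (K * s))
    refine le_trans ?_ h6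
    have h7 : ((T * (K * s) : ℕ) : ℝ) * (K / (((p : ℝ) - K) * (p - 1))) ≤ ε := by
      rw [div_le_iff₀ hε0] at hc2
      calc ((T * (K * s) : ℕ) : ℝ) * (K / (((p : ℝ) - K) * (p - 1)))
          ≤ ((T * (K * s) : ℕ) : ℝ) * (4 * K / (p * p)) :=
            mul_le_mul_of_nonneg_left h4 (by positivity)
        _ = (4 * (T * K ^ 2 : ℕ)) * (s / p) / p := by
            push_cast; field_simp
        _ ≤ (4 * (T * K ^ 2 : ℕ)) * 1 / p := by
            have : (s : ℝ) / p ≤ 1 := by rw [div_le_one hpR]; exact hsp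
            gcongr
        _ ≤ ε := by
            rw [mul_one, div_le_iff₀ hpR]; linarith
    linarith
  -- condition theta
  have hθ : 16 * ε + 22 / (p * η ^ K) + (4 * ε + 2 / (p * η ^ K)) * (32 / 3 / η ^ (K - 1)) ≤
      β := by
    rw [div_le_iff₀ (by positivity)] at hc3
    have h3 : 22 / (p * η ^ K) ≤ 22 * W / p := by
      calc 22 / (p * η ^ K) = 22 * (1 / η ^ K) / p := by field_simp
        _ ≤ _ := by gcongr
    have h4 : 2 / (p * η ^ K) ≤ 2 * W / p := by
      calc 2 / (p * η ^ K) = 2 * (1 / η ^ K) / p := by field_simp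
        _ ≤ _ := by gcongr
    have h5 : 32 / 3 / η ^ (K - 1) ≤ 32 / 3 * W := by
      calc 32 / 3 / η ^ (K - 1) = 32 / 3 * (1 / η ^ (K - 1)) := by field_simp
        _ ≤ _ := by gcongr
    have h6 : (4 * ε + 2 / (p * η ^ K)) * (32 / 3 / η ^ (K - 1)) ≤
        (4 * ε + 2 * W / p) * (32 / 3 * W) := by
      refine mul_le_mul (by linarith) h5 (by positivity) (by positivity)
    have h7 : (22 * W + 22 * W * W) / p ≤ β / 2 := by
      rw [div_le_iff₀ hpR]; linarith
    have h8 : (4 * ε + 2 * W / p) * (32 / 3 * W) ≤ 43 * W * ε + 22 * W * W / p := by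
      have : (4 * ε + 2 * W / p) * (32 / 3 * W) = 128 / 3 * W * ε + 64 / 3 * W * W / p := by
        field_simp; ring
      rw [this]
      have h9 : 128 / 3 * W * ε ≤ 43 * W * ε := by
        have : 0 ≤ W * ε := by positivity
        nlinarith
      have h10 : 64 / 3 * W * W / p ≤ 22 * W * W / p := by
        gcongr; norm_num
      linarith
    have h9 : 22 * W / p + 22 * W * W / p = (22 * W + 22 * W * W) / p := by ring
    linarith
  obtain ⟨Y, hY1, hY2⟩ := cover hdes hp1 hK1 hKp hε0.le hε1 h1 h2 hη hθ hβ1 S hS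
  refine ⟨Y, hY1, ?_⟩
  have hexp : Real.exp (-(3 / (64 * η))) ≤ β := by
    rw [hβ, Real.exp_le_exp, neg_le_neg_iff]
    unfold lam
    have h3 : Real.exp (T / 2) ≤ 1 / η := by
      rw [le_div_iff₀ hη0]
      calc Real.exp (T / 2) * η ≤ Real.exp (T / 2) * Real.exp (-(T / 2)) :=
            mul_le_mul_of_nonneg_left hηle (Real.exp_nonneg _)
        _ = 1 := by rw [← Real.exp_add]; simp
    calc 3 / 64 * Real.exp (T / 2) ≤ 3 / 64 * (1 / η) := by gcongr
      _ = _ := by field_simp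
  rw [Nat.card_eq_fintype_card, Fintype.card_subtype]
  refine hY2.trans ?_
  have h3 : (p : ℝ) / 8 ≤ β * (K * p) := by
    calc (p : ℝ) / 8 = (1 / 8) * p := by ring
      _ ≤ (β * K) * p := mul_le_mul_of_nonneg_right hKβ hpR.le
      _ = _ := by ring
  have h4 : (β + Real.exp (-(3 / (64 * η)))) * (K * p) ≤ (β + β) * (K * p) := by gcongr
  linarith

end Pool.Agent.Lib.MP_6df53f_co
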