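import Pool.Agent.Lib.MP_6df53f_co.Moment

/-!
# The outcome of the first phase
-/

open Finset

set_option linter.unusedSectionVars false

namespace Pool.Agent.Lib.MP_6df53f_co

variable {ι A B : Type*} [Fintype ι] [DecidableEq ι] [Fintype A] [DecidableEq A] [Fintype B]
  [DecidableEq B] {T : ℕ} {φ : A → ι → B} {s : ℕ}

/-- available parts of colour `a` all of whose points are uncovered -/
def Phase.avail (P : Phase φ T s) (S0 : Finset (A × B)) (f : Fin T × A → B) (a : A) : Finset B :=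
  univ.filter fun b => (a, b) ∉ S0 ∧ fiber φ a b ⊆ P.U f

/-- available parts of colour `a` all of whose points are good -/
def Phase.adm (P : Phase φ T s) (S0 : Finset (A × B)) (a : A) : Finset B :=
  univ.filter fun b => (a, b) ∉ S0 ∧ fiber φ a b ⊆ P.good

/-- colours whose part through `x` is available and has only good points -/
def Phase.cols (P : Phase φ T s) (S0 : Finset (A × B)) (x : ι) : Finset A :=
  univ.filter fun a => (a, φ a x) ∉ S0 ∧ fiber φ a (φ a x) ⊆ P.good

/-- colours whose part through `x` is available and has only uncovered points -/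
def Phase.Z (P : Phase φ T s) (S0 : Finset (A × B)) (f : Fin T × A → B) (x : ι) : Finset A :=
  univ.filter fun a => φ a x ∈ P.avail S0 f a

lemma Phase.U_subset (P : Phase φ T s) (f : Fin T × A → B) : P.U f ⊆ P.good :=
  Finset.filter_subset _ _

lemma Phase.avail_eq (P : Phase φ T s) (S0 : Finset (A × B)) (f : Fin T × A → B) (a : A) :
    P.avail S0 f a = (P.adm S0 a).filter fun b => fiber φ a b ⊆ P.U f := by
  ext b
  simp only [Phase.avail, Phase.adm, Finset.mem_filter, Finset.mem_univ, true_and]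
  constructor
  · rintro ⟨h1, h2⟩; exact ⟨⟨h1, h2.trans (P.U_subset f)⟩, h2⟩
  · rintro ⟨⟨h1, -⟩, h2⟩; exact ⟨h1, h2⟩

lemma Phase.Z_eq (P : Phase φ T s) (S0 : Finset (A × B)) (f : Fin T × A → B) (x : ι) :
    P.Z S0 f x = (P.cols S0 x).filter fun a => fiber φ a (φ a x) ⊆ P.U f := by
  ext a
  simp only [Phase.Z, Phase.avail, Phase.cols, Finset.mem_filter, Finset.mem_univ, true_and]
  constructor
  · rintro ⟨h1, h2⟩; exact ⟨⟨h1, h2.trans (P.U_subset f)⟩, h2⟩
  · rintro ⟨⟨h1, -⟩, h2⟩; exact ⟨h1, h2⟩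

lemma avg_le_div {g : (Fin T × A → B) → ℝ} {E : (Fin T × A → B) → Prop} [DecidablePred E] {c b : ℝ}
    (hc : 0 < c) (hg : ∀ f, 0 ≤ g f) (h : ∀ f, E f → c ≤ g f) (hb : avg g ≤ b) :
    avg (fun f => if E f then (1 : ℝ) else 0) ≤ b / c := by
  rw [le_div_iff₀ hc, mul_comm, ← avg_mul_left]
  refine (avg_mono fun f => ?_).trans hb
  split_ifs with h1
  · simpa using h f h1
  · simpa using hg f

lemma Design.card_union_fiber {K p : ℕ} (h : Design K p φ) (a : A) {b b' : B} (hb : b ≠ b') :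
    (fiber φ a b ∪ fiber φ a b').card = 2 * K := by
  rw [Finset.card_union_of_disjoint]
  · have h1 := h.fib a b
    have h2 := h.fib a b'
    unfold fiber
    omega
  · rw [Finset.disjoint_left]
    intro x h1 h2
    rw [mem_fiber] at h1 h2
    exact hb (h1.symm.trans h2)

lemma Design.card_union_fiber' {K p : ℕ} (h : Design K p φ) {a a' : A} (x : ι) (ha : a ≠ a') :
    (fiber φ a (φ a x) ∪ fiber φ a' (φ a' x)).card = 2 * K - 1 := by
  have h1 : (fiber φ a (φ a x)).card = K := h.fib a _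
  have h2 : (fiber φ a' (φ a' x)).card = K := h.fib a' _
  have h3 : fiber φ a (φ a x) ∩ fiber φ a' (φ a' x) = {x} := by
    ext y
    simp only [Finset.mem_inter, mem_fiber, Finset.mem_singleton]
    constructor
    · rintro ⟨h4, h5⟩
      by_contra hne
      have h6 := h.codeg y x hne
      have h7 : ({a, a'} : Finset A) ⊆ univ.filter fun a => φ a y = φ a x := by
        intro c hc
        rw [Finset.mem_insert, Finset.mem_singleton] at hc
        rcases hc with rfl | rfl
        · exact Finset.mem_filter.2 ⟨mem_univ _, h4⟩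
        · exact Finset.mem_filter.2 ⟨mem_univ _, h5⟩
      have h8 := Finset.card_le_card h7
      rw [Finset.card_pair ha] at h8
      omega
    · rintro rfl; exact ⟨rfl, rfl⟩
  have h4 := Finset.card_union_add_card_inter (fiber φ a (φ a x)) (fiber φ a' (φ a' x))
  rw [h3, Finset.card_singleton, h1, h2] at h4
  omega

/-- few colours have more than twice the expected number of uncovered parts -/
lemma Phase.Good.heavy {P : Phase φ T s} {K p : ℕ} {η ε : ℝ} (hP : P.Good K η ε)
    (h : Design K p φ) (hp : 0 < p) (S0 : Finset (A × B)) (a : A) :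
    avg (fun f => if 2 * p * η ^ K < ((P.avail S0 f a).card : ℝ) then (1 : ℝ) else 0) ≤
      4 * ε + 2 / (p * η ^ K) := by
  have hη := hP.eta_pos
  have hp0 : (0 : ℝ) < p := by positivity
  have hsf := hP.sunflower (P.adm S0 a) (fiber φ a) ∅ 0 (by simp) (Nat.zero_le _)
    (Finset.empty_subset _) (fun b hb => (Finset.mem_filter.1 hb).2.2) (fun b _ => h.fib a b)
    (fun b _ => Finset.empty_subset _) (fun b _ b' _ hne => h.card_union_fiber a hne)
  set m : ℝ := ((P.adm S0 a).card : ℝ) with hm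
  have hmp : m ≤ p := by
    rw [hm, ← h.cardB]; exact_mod_cast Finset.card_le_univ _
  have hm0 : 0 ≤ m := by positivity
  have hηK : 0 < η ^ K := by positivity
  have hle := avg_le_div (E := fun f => 2 * p * η ^ K < ((P.avail S0 f a).card : ℝ))
    (c := (p * η ^ K) ^ 2) (by positivity)
    (fun f => mul_nonneg (by split_ifs <;> norm_num) (sq_nonneg _)) (fun f hf => ?_) hsf
  · refine hle.trans ?_
    rw [div_le_iff₀ (by positivity)]
    have hε := hP.eps_nonneg
    have hε1 := hP.eps_le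
    simp only [Nat.sub_zero]
    have h2 : (4 * ε + 2 / (p * η ^ K)) * (p * η ^ K) ^ 2 =
        4 * ε * p ^ 2 * η ^ K * η ^ K + 2 * p * η ^ K := by
      field_simp
    rw [h2]
    have h3 : 4 * ε * m ^ 2 * η ^ K * η ^ K ≤ 4 * ε * p ^ 2 * η ^ K * η ^ K := by
      have : m ^ 2 ≤ (p : ℝ) ^ 2 := pow_le_pow_left₀ hm0 hmp 2
      gcongr
    have h4 : (1 + ε) * m * η ^ K ≤ 2 * p * η ^ K := by
      have : (1 + ε) * m ≤ 2 * p := by nlinarith
      exact mul_le_mul_of_nonneg_right this hηK.le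
    linarith
  · rw [if_pos (Finset.empty_subset _), one_mul, ← P.avail_eq]
    refine pow_le_pow_left₀ (by positivity) ?_ 2
    simp only [Nat.sub_zero]
    have : m * η ^ K ≤ p * η ^ K := mul_le_mul_of_nonneg_right hmp hηK.le
    linarith

/-- most uncovered points have many uncovered parts through them -/
lemma Phase.Good.fail {P : Phase φ T s} {K p : ℕ} {η ε : ℝ} (hP : P.Good K η ε)
    (h : Design K p φ) (hp : 0 < p) (hK : 1 ≤ K) (S0 : Finset (A × B)) {x : ι}
    (hx : x ∈ P.good) (hcols : 3 * p ≤ 8 * (P.cols S0 x).card) :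
    avg (fun f => if x ∈ P.U f ∧ ((P.Z S0 f x).card : ℝ) ≤ 3 / 16 * p * η ^ (K - 1)
      then (1 : ℝ) else 0) ≤ 16 * ε + 22 / (p * η ^ K) := by
  have hη := hP.eta_pos
  have hη1 := hP.eta_le
  have hp0 : (0 : ℝ) < p := by positivity
  have hsf := hP.sunflower (P.cols S0 x) (fun a => fiber φ a (φ a x)) {x} 1 (by simp) hK
    (Finset.singleton_subset_iff.2 hx) (fun b hb => (Finset.mem_filter.1 hb).2.2)
    (fun b _ => h.fib b _)
    (fun b _ => Finset.singleton_subset_iff.2 (mem_fiber.2 rfl))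
    (fun b _ b' _ hne => h.card_union_fiber' x hne)
  set m : ℝ := ((P.cols S0 x).card : ℝ) with hm
  have hmp : 3 / 8 * (p : ℝ) ≤ m := by
    have : (3 * p : ℝ) ≤ 8 * m := by rw [hm]; exact_mod_cast hcols
    linarith
  have hm0 : 0 < m := by nlinarith
  have hηK : 0 < η ^ K := by positivity
  have hηK1 : 0 < η ^ (K - 1) := by positivity
  have hK1 : η ^ K = η ^ (K - 1) * η := by rw [← pow_succ]; congr 1; omega
  have hle := avg_le_div (E := fun f => x ∈ P.U f ∧ ((P.Z S0 f x).card : ℝ) ≤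
      3 / 16 * p * η ^ (K - 1))
    (c := (m / 2 * η ^ (K - 1)) ^ 2) (by positivity)
    (fun f => mul_nonneg (by split_ifs <;> norm_num) (sq_nonneg _)) (fun f hf => ?_) hsf
  · refine hle.trans ?_
    rw [div_le_iff₀ (by positivity)]
    have hε := hP.eps_nonneg
    have hε1 := hP.eps_le
    have h3 : 4 * ε * m ^ 2 * η ^ (K - 1) * η ^ K ≤
        16 * ε * (m / 2 * η ^ (K - 1)) ^ 2 := by
      rw [hK1]
      have : 16 * ε * (m / 2 * η ^ (K - 1)) ^ 2 =
        4 * ε * m ^ 2 * η ^ (K - 1) * η ^ (K - 1) := by ring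
      rw [this]
      have h5 : η ^ (K - 1) * η ≤ η ^ (K - 1) := mul_le_of_le_one_right hηK1.le hη1
      gcongr
    have h4 : (1 + ε) * m * η ^ K ≤ 22 / (p * η ^ K) * (m / 2 * η ^ (K - 1)) ^ 2 := by
      have h6 : 22 / (p * η ^ K) * (m / 2 * η ^ (K - 1)) ^ 2 =
          (11 / 2) * m * (m / p) * (η ^ (K - 1) * η ^ (K - 1) / η ^ K) := by
        field_simp
        ring
      rw [h6]
      have h7 : (3 : ℝ) / 8 ≤ m / p := by rw [le_div_iff₀ hp0]; exact hmp
      have h8 : η ^ K ≤ η ^ (K - 1) * η ^ (K - 1) / η ^ K := by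
        rw [le_div_iff₀ hηK]
        have : η ^ K ≤ η ^ (K - 1) := by
          rw [hK1]; exact mul_le_of_le_one_right hηK1.le hη1
        exact mul_le_mul this this hηK.le hηK1.le
      have h9 : (1 + ε) * m ≤ 11 / 2 * m * (m / p) := by
        have : (11 : ℝ) / 2 * m * (3 / 8) ≤ 11 / 2 * m * (m / p) :=
          mul_le_mul_of_nonneg_left h7 (by positivity)
        nlinarith
      exact mul_le_mul h9 h8 hηK.le (by positivity)
    nlinarith
  · rw [if_pos (Finset.singleton_subset_iff.2 hf.1), one_mul, ← P.Z_eq]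
    have h5 : m / 2 * η ^ (K - 1) ≤ m * η ^ (K - 1) - ((P.Z S0 f x).card : ℝ) := by
      have h6 : 3 / 16 * (p : ℝ) * η ^ (K - 1) ≤ m / 2 * η ^ (K - 1) :=
        mul_le_mul_of_nonneg_right (by linarith) hηK1.le
      have := hf.2
      linarith
    calc (m / 2 * η ^ (K - 1)) ^ 2 ≤ (m * η ^ (K - 1) - ((P.Z S0 f x).card : ℝ)) ^ 2 :=
          pow_le_pow_left₀ (by positivity) h5 2
      _ = _ := by ring

/-- the outcome of the first phase -/
theorem Phase.Good.phase_one [Nonempty A] [Nonempty B] {P : Phase φ T s} {K p : ℕ} {η ε : ℝ}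
    (hP : P.Good K η ε) (h : Design K p φ) (hp : 0 < p) (hK : 1 ≤ K) (S0 : Finset (A × B))
    (hcols : ∀ x ∈ P.good, 3 * p ≤ 8 * (P.cols S0 x).card) {θ : ℝ}
    (hθ : 16 * ε + 22 / (p * η ^ K) + (4 * ε + 2 / (p * η ^ K)) * (32 / 3 / η ^ (K - 1)) ≤ θ)
    (hθ1 : θ < 1) :
    ∃ f : Fin T × A → B,
      ((univ.filter fun a => 2 * p * η ^ K < ((P.avail S0 f a).card : ℝ)).card : ℝ) <
        3 / 32 * p * η ^ (K - 1) ∧
      (((P.U f).filter fun x => ((P.Z S0 f x).card : ℝ) ≤ 3 / 16 * p * η ^ (K - 1)).card : ℝ) ≤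
        θ * (K * p) := by
  have hη := hP.eta_pos
  have hp0 : (0 : ℝ) < p := by positivity
  have hK0 : (0 : ℝ) < K := by positivity
  have hηK : 0 < η ^ K := by positivity
  have hηK1 : 0 < η ^ (K - 1) := by positivity
  set H : (Fin T × A → B) → ℝ := fun f =>
    ((univ.filter fun a => 2 * p * η ^ K < ((P.avail S0 f a).card : ℝ)).card : ℝ) with hH
  set F : (Fin T × A → B) → ℝ := fun f =>
    (((P.U f).filter fun x => ((P.Z S0 f x).card : ℝ) ≤ 3 / 16 * p * η ^ (K - 1)).card : ℝ) with hF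
  have hHavg : avg H ≤ p * (4 * ε + 2 / (p * η ^ K)) := by
    have h1 : H = fun f => ∑ a : A,
        if 2 * p * η ^ K < ((P.avail S0 f a).card : ℝ) then (1 : ℝ) else 0 := by
      funext f; simp only [hH]; rw [← Finset.sum_boole]
    rw [h1, avg_sum]
    calc ∑ a : A, avg (fun f => if 2 * p * η ^ K < ((P.avail S0 f a).card : ℝ)
          then (1 : ℝ) else 0) ≤ ∑ a : A, (4 * ε + 2 / (p * η ^ K)) :=
          Finset.sum_le_sum fun a _ => hP.heavy h hp S0 a
      _ = p * (4 * ε + 2 / (p * η ^ K)) := by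
          rw [Finset.sum_const, nsmul_eq_mul, Finset.card_univ, h.cardA]
  have hθ0 : 0 ≤ 16 * ε + 22 / (p * η ^ K) := by
    have := hP.eps_nonneg
    positivity
  have hFavg : avg F ≤ K * p * (16 * ε + 22 / (p * η ^ K)) := by
    have h1 : F = fun f => ∑ x ∈ P.good,
        if x ∈ P.U f ∧ ((P.Z S0 f x).card : ℝ) ≤ 3 / 16 * p * η ^ (K - 1)
          then (1 : ℝ) else 0 := by
      funext f
      simp only [hF]
      rw [Finset.sum_boole]
      congr 2
      ext x
      simp only [Finset.mem_filter]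
      constructor
      · rintro ⟨h2, h3⟩; exact ⟨P.U_subset f h2, h2, h3⟩
      · rintro ⟨_, h2, h3⟩; exact ⟨h2, h3⟩
    rw [h1, avg_sum]
    calc ∑ x ∈ P.good, avg (fun f => if x ∈ P.U f ∧ ((P.Z S0 f x).card : ℝ) ≤
          3 / 16 * p * η ^ (K - 1) then (1 : ℝ) else 0)
        ≤ ∑ x ∈ P.good, (16 * ε + 22 / (p * η ^ K)) :=
          Finset.sum_le_sum fun x hx => hP.fail h hp hK S0 hx (hcols x hx)
      _ = (P.good.card : ℝ) * (16 * ε + 22 / (p * η ^ K)) := by
          rw [Finset.sum_const, nsmul_eq_mul]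
      _ ≤ K * p * (16 * ε + 22 / (p * η ^ K)) := by
          refine mul_le_mul_of_nonneg_right ?_ hθ0
          have h2 : P.good.card ≤ K * p := by
            rw [← h.card_points (Classical.arbitrary A)]; exact Finset.card_le_univ _
          exact_mod_cast h2
  have hH0 : ∀ f, 0 ≤ H f := fun f => by positivity
  have hF0 : ∀ f, 0 ≤ F f := fun f => by positivity
  obtain ⟨f, hf⟩ := exists_le_avg (fun f => (1 / (K * p)) * F f + (32 / 3 / (p * η ^ (K - 1))) * H f)
  rw [avg_add, avg_mul_left, avg_mul_left] at hf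
  have h1 : (1 / (K * p)) * avg F ≤ 16 * ε + 22 / (p * η ^ K) := by
    rw [one_div, inv_mul_le_iff₀ (by positivity)]
    exact hFavg
  have h2 : (32 / 3 / (p * η ^ (K - 1))) * avg H ≤
      (4 * ε + 2 / (p * η ^ K)) * (32 / 3 / η ^ (K - 1)) := by
    calc (32 / 3 / (p * η ^ (K - 1))) * avg H
        ≤ (32 / 3 / (p * η ^ (K - 1))) * (p * (4 * ε + 2 / (p * η ^ K))) :=
          mul_le_mul_of_nonneg_left hHavg (by positivity)
      _ = _ := by field_simp
  have h3 : (1 / (K * p)) * F f + (32 / 3 / (p * η ^ (K - 1))) * H f ≤ θ := by linarith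
  have h4 : 0 ≤ (32 / 3 / (p * η ^ (K - 1))) * H f := by
    have := hH0 f; positivity
  have h5 : 0 ≤ (1 / (K * p)) * F f := by
    have := hF0 f; positivity
  refine ⟨f, ?_, ?_⟩
  · have h6 : (32 / 3 / (p * η ^ (K - 1))) * H f < 1 := by linarith
    rw [div_mul_eq_mul_div, div_lt_one (by positivity)] at h6
    change H f < _
    linarith
  · have h6 : (1 / (K * p)) * F f ≤ θ := by linarith
    rw [one_div, inv_mul_le_iff₀ (by positivity)] at h6
    change F f ≤ _
    linarith

end Pool.Agent.Lib.MP_6df53f_co
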