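import Pool.Agent.Lib.MP_6df53f_co.PhaseOne

/-!
# The second phase and the covering theorem
-/

open Finset

set_option linter.unusedSectionVars false

namespace Pool.Agent.Lib.MP_6df53f_co

variable {ι A B : Type*} [Fintype ι] [DecidableEq ι] [Fintype A] [DecidableEq A] [Fintype B]
  [DecidableEq B] {T : ℕ} {φ : A → ι → B} {s : ℕ}

/-- choose one part of each list at random -/
lemma phase_two [Nonempty B] (φ : A → ι → B) (L : A → Finset B) (U : Finset ι) :
    ∃ g : A → Option B, (∀ a b, g a = some b → b ∈ L a) ∧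
      ((U.filter fun x => ∀ a, g a ≠ some (φ a x)).card : ℝ) ≤
        ∑ x ∈ U, Real.exp (-∑ a ∈ univ.filter (fun a => φ a x ∈ L a), 1 / ((L a).card : ℝ)) := by
  classical
  obtain ⟨b0⟩ := ‹Nonempty B›
  set L' : A → Finset B := fun a => if (L a).Nonempty then L a else {b0} with hL'
  have hLe : ∀ a, (L a).Nonempty → L' a = L a := fun a ha => by
    simp only [hL']; rw [if_pos ha]
  have hL'ne : ∀ a, (L' a).Nonempty := by
    intro a
    simp only [hL']
    split_ifs with h
    · exact h
    · exact Finset.singleton_nonempty _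
  set G := Fintype.piFinset L' with hG
  have hGne : G.Nonempty := Fintype.piFinset_nonempty.2 hL'ne
  -- uncovered points for a choice
  let unc : (A → B) → Finset ι := fun g => U.filter fun x => ∀ a, φ a x ∈ L a → g a ≠ φ a x
  have hcount : ∀ x, ((G.filter fun g => ∀ a, φ a x ∈ L a → g a ≠ φ a x).card : ℝ) ≤
      G.card * Real.exp (-∑ a ∈ univ.filter (fun a => φ a x ∈ L a), 1 / ((L a).card : ℝ)) := by
    intro x
    have h1 : (G.filter fun g => ∀ a, φ a x ∈ L a → g a ≠ φ a x) =
        Fintype.piFinset fun a => if φ a x ∈ L a then (L a).erase (φ a x) else L' a := by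
      ext g
      simp only [hG, Finset.mem_filter, Fintype.mem_piFinset]
      constructor
      · rintro ⟨h2, h3⟩ a
        split_ifs with h4
        · have h5 := h2 a
          rw [hLe a ⟨_, h4⟩] at h5
          exact Finset.mem_erase.2 ⟨h3 a h4, h5⟩
        · exact h2 a
      · intro h2
        refine ⟨fun a => ?_, fun a h4 => ?_⟩
        · have h3 := h2 a
          split_ifs at h3 with h4
          · rw [hLe a ⟨_, h4⟩]
            exact Finset.mem_of_mem_erase h3
          · exact h3
        · have h3 := h2 a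
          rw [if_pos h4] at h3
          exact Finset.ne_of_mem_erase h3
    rw [h1, hG, Fintype.card_piFinset, Fintype.card_piFinset]
    push_cast
    rw [← Finset.sum_neg_distrib, Real.exp_sum, Finset.prod_filter, ← Finset.prod_mul_distrib]
    refine Finset.prod_le_prod (fun a _ => by positivity) fun a _ => ?_
    split_ifs with h4
    · have hpos : 0 < (L a).card := Finset.card_pos.2 ⟨_, h4⟩
      have hpos' : (0 : ℝ) < (L a).card := by exact_mod_cast hpos
      have h5 : L' a = L a := hLe a ⟨_, h4⟩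
      rw [h5, Finset.card_erase_of_mem h4, Nat.cast_sub hpos]
      have h6 := Real.add_one_le_exp (-(1 / ((L a).card : ℝ)))
      calc ((L a).card : ℝ) - ((1 : ℕ) : ℝ) = (L a).card * (-(1 / ((L a).card : ℝ)) + 1) := by
            push_cast; field_simp; ring
        _ ≤ _ := mul_le_mul_of_nonneg_left h6 hpos'.le
    · simp
  have hsum : ∑ g ∈ G, ((unc g).card : ℝ) ≤ ∑ g ∈ G, ∑ x ∈ U,
      Real.exp (-∑ a ∈ univ.filter (fun a => φ a x ∈ L a), 1 / ((L a).card : ℝ)) := by
    have h1 : ∑ g ∈ G, ((unc g).card : ℝ) =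
        ∑ x ∈ U, ((G.filter fun g => ∀ a, φ a x ∈ L a → g a ≠ φ a x).card : ℝ) := by
      simp only [unc, ← Finset.sum_boole]
      rw [Finset.sum_comm]
    rw [h1, Finset.sum_const, nsmul_eq_mul, Finset.mul_sum]
    exact Finset.sum_le_sum fun x _ => hcount x
  obtain ⟨g, hgG, hg⟩ := Finset.exists_le_of_sum_le hGne hsum
  refine ⟨fun a => if (L a).Nonempty then some (g a) else none, fun a b hab => ?_, ?_⟩
  · have h1 := Fintype.mem_piFinset.1 hgG a
    simp only at hab
    split_ifs at hab with h2
    · rw [hLe a h2] at h1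
      rw [Option.some.injEq] at hab
      rwa [← hab]
  · refine le_trans ?_ hg
    have : (U.filter fun x => ∀ a, (if (L a).Nonempty then some (g a) else none) ≠
        some (φ a x)) ⊆ unc g := by
      intro x hx
      rw [Finset.mem_filter] at hx
      refine Finset.mem_filter.2 ⟨hx.1, fun a ha hga => hx.2 a ?_⟩
      rw [if_pos ⟨_, ha⟩, hga]
    exact_mod_cast Finset.card_le_card this

/-- the removed parts of a copy -/
def slice {τ : Type*} [DecidableEq τ] (S : Finset ((τ × A) × B)) (t : τ) : Finset (A × B) :=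
  univ.filter fun q => ((t, q.1), q.2) ∈ S

lemma sum_card_slice {τ : Type*} [Fintype τ] [DecidableEq τ] (S : Finset ((τ × A) × B)) :
    ∑ t : τ, (slice S t).card = S.card := by
  have h1 : ∀ t, (slice S t).card = (S.filter fun q => q.1.1 = t).card := by
    intro t
    refine Finset.card_bij (fun q _ => ((t, q.1), q.2)) ?_ ?_ ?_
    · intro q hq
      exact Finset.mem_filter.2 ⟨(Finset.mem_filter.1 hq).2, rfl⟩
    · rintro ⟨a, b⟩ _ ⟨a', b'⟩ _ h
      simpa using h
    · rintro ⟨⟨t', a⟩, b⟩ hq
      rw [Finset.mem_filter] at hq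
      obtain ⟨h2, h3⟩ := hq
      simp only at h3
      subst h3
      exact ⟨(a, b), Finset.mem_filter.2 ⟨mem_univ _, h2⟩, rfl⟩
  rw [Finset.sum_congr rfl (fun t _ => h1 t)]
  exact (Finset.card_eq_sum_card_fiberwise (fun q _ => mem_univ _)).symm

/-- the covering theorem -/
theorem cover [Nonempty A] [Nonempty B] {K p : ℕ} (h : Design K p φ) (hp : 1 < p) (hK : 1 ≤ K)
    (hKp : K < p) {ε θ : ℝ} (hε0 : 0 ≤ ε) (hε1 : ε ≤ 1)
    (h1 : 1 ≤ (1 + ε) * (1 - 1 / (p : ℝ)) ^ (T * (2 * K) ^ 2))
    (h2 : (1 - ε) * ((1 - 1 / (p : ℝ)) ^ (T * ((p + 1) / 2))) ^ K ≤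
      (1 - 1 / ((p : ℝ) - K)) ^ (T * (K * ((p + 1) / 2))))
    {η : ℝ} (hη : η = (1 - 1 / (p : ℝ)) ^ (T * ((p + 1) / 2)))
    (hθ : 16 * ε + 22 / (p * η ^ K) + (4 * ε + 2 / (p * η ^ K)) * (32 / 3 / η ^ (K - 1)) ≤ θ)
    (hθ1 : θ < 1)
    (S : Finset ((Option (Fin T) × A) × B)) (hS : 64 * S.card ≤ p ^ 2) :
    ∃ Y : Option (Fin T) × A → Option B, (∀ i b, Y i = some b → (i, b) ∉ S) ∧
      ((univ.filter fun x => ∀ i, Y i ≠ some (φ i.2 x)).card : ℝ) ≤
        p / 8 + (θ + Real.exp (-(3 / (64 * η)))) * (K * p) := by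
  classical
  -- bad points
  set Bad : Finset ι := univ.biUnion fun t => bad φ (slice S t) with hBad
  have hslice : ∀ t, (slice S t).card ≤ S.card := fun t => by
    rw [← sum_card_slice S]
    exact Finset.single_le_sum (f := fun t => (slice S t).card) (fun _ _ => Nat.zero_le _)
      (mem_univ t)
  have hBadcard : 8 * Bad.card ≤ p := by
    have h3 : Bad.card * p ≤ 8 * S.card := by
      calc Bad.card * p ≤ (∑ t, (bad φ (slice S t)).card) * p :=
            Nat.mul_le_mul_right _ Finset.card_biUnion_le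
        _ = ∑ t, (bad φ (slice S t)).card * p := by rw [Finset.sum_mul]
        _ ≤ ∑ t, 8 * (slice S t).card := Finset.sum_le_sum fun t _ =>
            card_bad_le h _ (by have := hslice t; omega)
        _ = 8 * S.card := by rw [← Finset.mul_sum, sum_card_slice]
    have h4 : (8 * Bad.card) * p ≤ p * p := by nlinarith
    exact Nat.le_of_mul_le_mul_right h4 (by omega)
  have hav : ∀ x ∉ Bad, ∀ t, (p + 1) / 2 ≤
      (univ.filter fun a => (a, φ a x) ∉ slice S t).card := by
    intro x hx t
    have h3 : x ∉ bad φ (slice S t) := fun h4 => hx (Finset.mem_biUnion.2 ⟨t, mem_univ _, h4⟩)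
    simp only [bad, Finset.mem_filter, Finset.mem_univ, true_and, not_le] at h3
    have h4 := Finset.card_filter_add_card_filter_not (s := (univ : Finset A))
      (fun a => (a, φ a x) ∈ slice S t)
    rw [Finset.card_univ, h.cardA] at h4
    rw [h.cardA] at h3
    omega
  -- the phase
  have hact : ∀ (t : Fin T) (x : ι), ∃ Ac : Finset A, x ∉ Bad →
      (Ac ⊆ univ.filter fun a => (a, φ a x) ∉ slice S (some t)) ∧ Ac.card = (p + 1) / 2 := by
    intro t x
    by_cases hx : x ∈ Bad
    · exact ⟨∅, fun h3 => absurd hx h3⟩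
    · obtain ⟨Ac, h3, h4⟩ := Finset.exists_subset_card_eq (hav x hx (some t))
      exact ⟨Ac, fun _ => ⟨h3, h4⟩⟩
  choose act hact using hact
  let P : Phase φ T ((p + 1) / 2) :=
    { good := univ \ Bad
      act := act
      card_act := fun t x hx => (hact t x (Finset.mem_sdiff.1 hx).2).2 }
  have hgood : P.good = univ \ Bad := rfl
  have hPG : P.Good K η ε := by
    rw [hη]
    exact P.good_of h hp hKp hε0 hε1 h1 h2
  set S0 := slice S none with hS0
  have hcols : ∀ x ∈ P.good, 3 * p ≤ 8 * (P.cols S0 x).card := by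
    intro x hx
    have hxB : x ∉ Bad := (Finset.mem_sdiff.1 hx).2
    have h3 : (p + 1) / 2 ≤ (univ.filter fun a => (a, φ a x) ∉ S0).card := hav x hxB none
    have h4 : (univ.filter fun a => (a, φ a x) ∉ S0).card ≤ (P.cols S0 x).card +
        (univ.filter fun a => ¬ fiber φ a (φ a x) ⊆ P.good).card := by
      rw [← Finset.card_union_of_disjoint]
      · refine Finset.card_le_card fun a ha => ?_
        rw [Finset.mem_union]
        by_cases h5 : fiber φ a (φ a x) ⊆ P.good
        · exact Or.inl (Finset.mem_filter.2 ⟨mem_univ _, (Finset.mem_filter.1 ha).2, h5⟩)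
        · exact Or.inr (Finset.mem_filter.2 ⟨mem_univ _, h5⟩)
      · rw [Finset.disjoint_left]
        intro a h5 h6
        exact (Finset.mem_filter.1 h6).2 (Finset.mem_filter.1 h5).2.2
    have h5 : (univ.filter fun a => ¬ fiber φ a (φ a x) ⊆ P.good).card ≤ Bad.card := by
      calc (univ.filter fun a => ¬ fiber φ a (φ a x) ⊆ P.good).card
          ≤ (Bad.biUnion fun y => univ.filter fun a => φ a y = φ a x).card := by
            refine Finset.card_le_card fun a ha => ?_
            have h6 := (Finset.mem_filter.1 ha).2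
            rw [Finset.not_subset] at h6
            obtain ⟨y, hy, hyg⟩ := h6
            rw [mem_fiber] at hy
            rw [hgood, Finset.mem_sdiff, not_and, not_not] at hyg
            exact Finset.mem_biUnion.2 ⟨y, hyg (mem_univ _), Finset.mem_filter.2 ⟨mem_univ _, hy⟩⟩
        _ ≤ ∑ y ∈ Bad, (univ.filter fun a => φ a y = φ a x).card := Finset.card_biUnion_le
        _ ≤ ∑ y ∈ Bad, 1 := Finset.sum_le_sum fun y hy =>
            h.codeg y x (fun h6 => hxB (h6 ▸ hy))
        _ = Bad.card := by simp
    omega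
  obtain ⟨f, hf1, hf2⟩ := hPG.phase_one h (by omega) hK S0 hcols hθ hθ1
  obtain ⟨g, hg1, hg2⟩ := phase_two φ (fun a => P.avail S0 f a) (P.U f)
  have hηpos := hPG.eta_pos
  have hp0 : (0 : ℝ) < p := by positivity
  have hK0 : (0 : ℝ) < K := by positivity
  -- rate of the second phase
  have hrate : ∀ x, ¬ ((P.Z S0 f x).card : ℝ) ≤ 3 / 16 * p * η ^ (K - 1) →
      3 / (64 * η) ≤ ∑ a ∈ univ.filter (fun a => φ a x ∈ P.avail S0 f a),
        1 / ((P.avail S0 f a).card : ℝ) := by
    intro x hx
    push Not at hx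
    set Hv := univ.filter fun a => 2 * p * η ^ K < ((P.avail S0 f a).card : ℝ) with hHv
    have h3 : P.Z S0 f x = univ.filter (fun a => φ a x ∈ P.avail S0 f a) := rfl
    rw [← h3]
    have h4 : ((P.Z S0 f x).card : ℝ) ≤ ((P.Z S0 f x \ Hv).card : ℝ) + Hv.card := by
      have : (P.Z S0 f x).card ≤ (P.Z S0 f x \ Hv).card + Hv.card := by
        calc (P.Z S0 f x).card ≤ ((P.Z S0 f x \ Hv) ∪ Hv).card :=
              Finset.card_le_card (by
                intro a ha
                rw [Finset.mem_union, Finset.mem_sdiff]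
                by_cases h5 : a ∈ Hv
                · exact Or.inr h5
                · exact Or.inl ⟨ha, h5⟩)
          _ ≤ _ := Finset.card_union_le _ _
      exact_mod_cast this
    have h5 : 3 / 32 * p * η ^ (K - 1) ≤ ((P.Z S0 f x \ Hv).card : ℝ) := by
      have : (Hv.card : ℝ) < 3 / 32 * p * η ^ (K - 1) := hf1
      have h6 : 3 / 16 * (p : ℝ) * η ^ (K - 1) = 2 * (3 / 32 * p * η ^ (K - 1)) := by ring
      linarith
    have hK1 : η ^ K = η ^ (K - 1) * η := by rw [← pow_succ]; congr 1; omega
    calc 3 / (64 * η) = (3 / 32 * p * η ^ (K - 1)) * (1 / (2 * p * η ^ K)) := by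
          rw [hK1]; field_simp; ring
      _ ≤ ((P.Z S0 f x \ Hv).card : ℝ) * (1 / (2 * p * η ^ K)) :=
          mul_le_mul_of_nonneg_right h5 (by positivity)
      _ = ∑ a ∈ P.Z S0 f x \ Hv, 1 / (2 * p * η ^ K) := by
          rw [Finset.sum_const, nsmul_eq_mul]
      _ ≤ ∑ a ∈ P.Z S0 f x \ Hv, 1 / ((P.avail S0 f a).card : ℝ) := by
          refine Finset.sum_le_sum fun a ha => ?_
          rw [Finset.mem_sdiff] at ha
          have h6 : ((P.avail S0 f a).card : ℝ) ≤ 2 * p * η ^ K := by
            by_contra h7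
            push Not at h7
            exact ha.2 (Finset.mem_filter.2 ⟨mem_univ _, h7⟩)
          have h7 : (0 : ℝ) < (P.avail S0 f a).card := by
            have : φ a x ∈ P.avail S0 f a := (Finset.mem_filter.1 ha.1).2
            exact_mod_cast Finset.card_pos.2 ⟨_, this⟩
          exact one_div_le_one_div_of_le h7 h6
      _ ≤ ∑ a ∈ P.Z S0 f x, 1 / ((P.avail S0 f a).card : ℝ) :=
          Finset.sum_le_sum_of_subset_of_nonneg Finset.sdiff_subset
            (fun a _ _ => by positivity)
  -- the choice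
  refine ⟨fun i => match i with
    | (none, a) => g a
    | (some t, a) => if ((some t, a), f (t, a)) ∈ S then none else some (f (t, a)), ?_, ?_⟩
  · rintro ⟨_ | t, a⟩ b hb
    · have := hg1 a b hb
      have h3 := (Finset.mem_filter.1 this).2.1
      intro h4
      exact h3 (Finset.mem_filter.2 ⟨mem_univ _, h4⟩)
    · simp only at hb
      split_ifs at hb with h3
      rw [Option.some.injEq] at hb
      rwa [← hb]
  · set unc := univ.filter fun x => ∀ i : Option (Fin T) × A, (match i with
      | (none, a) => g a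
      | (some t, a) => if ((some t, a), f (t, a)) ∈ S then none else some (f (t, a))) ≠
        some (φ i.2 x) with hunc
    have h3 : unc ⊆ Bad ∪ (P.U f).filter fun x => ∀ a, g a ≠ some (φ a x) := by
      intro x hx
      have hx' := (Finset.mem_filter.1 hx).2
      rw [Finset.mem_union]
      by_cases hxB : x ∈ Bad
      · exact Or.inl hxB
      · right
        refine Finset.mem_filter.2 ⟨?_, fun a => hx' (none, a)⟩
        refine Finset.mem_filter.2 ⟨Finset.mem_sdiff.2 ⟨mem_univ _, hxB⟩, fun t a ha hfa => ?_⟩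
        have h4 := (hact t x hxB).1 ha
        have h5 := (Finset.mem_filter.1 h4).2
        have h6 : ((some t, a), φ a x) ∉ S := fun h7 =>
          h5 (Finset.mem_filter.2 ⟨mem_univ _, h7⟩)
        apply hx' (some t, a)
        simp only
        rw [hfa, if_neg h6]
    have h4 : (unc.card : ℝ) ≤ Bad.card +
        ((P.U f).filter fun x => ∀ a, g a ≠ some (φ a x)).card := by
      exact_mod_cast (Finset.card_le_card h3).trans (Finset.card_union_le _ _)
    have h5 : (Bad.card : ℝ) ≤ p / 8 := by
      have : (8 * Bad.card : ℝ) ≤ p := by exact_mod_cast hBadcard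
      linarith
    have h6 : ∑ x ∈ P.U f, Real.exp (-∑ a ∈ univ.filter (fun a => φ a x ∈ P.avail S0 f a),
        1 / ((P.avail S0 f a).card : ℝ)) ≤ θ * (K * p) +
        Real.exp (-(3 / (64 * η))) * (K * p) := by
      rw [← Finset.sum_filter_add_sum_filter_not (P.U f)
        (fun x => ((P.Z S0 f x).card : ℝ) ≤ 3 / 16 * p * η ^ (K - 1))]
      refine add_le_add ?_ ?_
      · refine le_trans ?_ hf2
        calc _ ≤ ∑ x ∈ (P.U f).filter fun x => ((P.Z S0 f x).card : ℝ) ≤
              3 / 16 * p * η ^ (K - 1), (1 : ℝ) := by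
              refine Finset.sum_le_sum fun x _ => ?_
              rw [Real.exp_le_one_iff, neg_nonpos]
              exact Finset.sum_nonneg fun a _ => by positivity
          _ = _ := by simp
      · calc _ ≤ ∑ x ∈ (P.U f).filter fun x => ¬ ((P.Z S0 f x).card : ℝ) ≤
              3 / 16 * p * η ^ (K - 1), Real.exp (-(3 / (64 * η))) := by
              refine Finset.sum_le_sum fun x hx => ?_
              rw [Real.exp_le_exp, neg_le_neg_iff]
              exact hrate x (Finset.mem_filter.1 hx).2
          _ = (((P.U f).filter fun x => ¬ ((P.Z S0 f x).card : ℝ) ≤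
              3 / 16 * p * η ^ (K - 1)).card : ℝ) * Real.exp (-(3 / (64 * η))) := by
              rw [Finset.sum_const, nsmul_eq_mul]
          _ ≤ (K * p) * Real.exp (-(3 / (64 * η))) := by
              refine mul_le_mul_of_nonneg_right ?_ (Real.exp_nonneg _)
              have h7 : ((P.U f).filter fun x => ¬ ((P.Z S0 f x).card : ℝ) ≤
                3 / 16 * p * η ^ (K - 1)).card ≤ K * p := by
                rw [← h.card_points (Classical.arbitrary A)]; exact Finset.card_le_univ _
              exact_mod_cast h7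
          _ = _ := by ring
    calc (unc.card : ℝ) ≤ _ := h4
      _ ≤ p / 8 + (θ * (K * p) + Real.exp (-(3 / (64 * η))) * (K * p)) :=
          add_le_add h5 (hg2.trans h6)
      _ = _ := by ring

end Pool.Agent.Lib.MP_6df53f_co
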