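import Pool.Agent.Lib.MP_6df53f_co.Design

/-!
# The first phase: uniformly random parts

For each copy `t` and colour `a` a uniformly random part `f (t, a)` is chosen. `U` is the set of
good points which are not covered at an active colour.
-/

open Finset

set_option linter.unusedSectionVars false

namespace Pool.Agent.Lib.MP_6df53f_co

variable {ι A B : Type*} [Fintype ι] [DecidableEq ι] [Fintype A] [DecidableEq A] [Fintype B]
  [DecidableEq B] {T : ℕ}

/-- uniform average over all choices -/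
noncomputable def avg (g : (Fin T × A → B) → ℝ) : ℝ :=
  (∑ f, g f) / Fintype.card (Fin T × A → B)

lemma avg_add (g g' : (Fin T × A → B) → ℝ) : avg (fun f => g f + g' f) = avg g + avg g' := by
  unfold avg; rw [Finset.sum_add_distrib, add_div]

lemma avg_mul_left (c : ℝ) (g : (Fin T × A → B) → ℝ) : avg (fun f => c * g f) = c * avg g := by
  unfold avg; rw [← Finset.mul_sum, mul_div_assoc]

lemma avg_sum {κ : Type*} (s : Finset κ) (g : κ → (Fin T × A → B) → ℝ) :
    avg (fun f => ∑ k ∈ s, g k f) = ∑ k ∈ s, avg (g k) := by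
  unfold avg; rw [Finset.sum_comm, Finset.sum_div]

lemma avg_mono {g g' : (Fin T × A → B) → ℝ} (h : ∀ f, g f ≤ g' f) : avg g ≤ avg g' := by
  unfold avg
  exact div_le_div_of_nonneg_right (Finset.sum_le_sum fun f _ => h f) (by positivity)

lemma avg_nonneg {g : (Fin T × A → B) → ℝ} (h : ∀ f, 0 ≤ g f) : 0 ≤ avg g := by
  unfold avg
  exact div_nonneg (Finset.sum_nonneg fun f _ => h f) (by positivity)

lemma exists_le_avg [Nonempty B] (g : (Fin T × A → B) → ℝ) : ∃ f, g f ≤ avg g := by
  by_contra hcon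
  push Not at hcon
  have hpos : (0 : ℝ) < Fintype.card (Fin T × A → B) := by exact_mod_cast Fintype.card_pos
  have h1 : ∑ f : (Fin T × A → B), avg g < ∑ f, g f :=
    Finset.sum_lt_sum_of_nonempty univ_nonempty fun f _ => hcon f
  rw [Finset.sum_const, nsmul_eq_mul, Finset.card_univ] at h1
  unfold avg at h1
  rw [mul_div_cancel₀ _ hpos.ne'] at h1
  exact lt_irrefl _ h1

/-- the data of the first phase -/
structure Phase (φ : A → ι → B) (T s : ℕ) where
  /-- the good points -/
  good : Finset ι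
  /-- the active colours of a point -/
  act : Fin T → ι → Finset A
  card_act : ∀ t, ∀ x ∈ good, (act t x).card = s

variable {φ : A → ι → B} {s : ℕ}

/-- the good points not covered at an active colour -/
def Phase.U (P : Phase φ T s) (f : Fin T × A → B) : Finset ι :=
  P.good.filter fun x => ∀ t, ∀ a ∈ P.act t x, f (t, a) ≠ φ a x

/-- the forbidden values at a colour -/
def Phase.forb (P : Phase φ T s) (D : Finset ι) (q : Fin T × A) : Finset B :=
  (D.filter fun x => q.2 ∈ P.act q.1 x).image (φ q.2)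

lemma Phase.subset_U_iff (P : Phase φ T s) {D : Finset ι} (hD : D ⊆ P.good)
    (f : Fin T × A → B) : D ⊆ P.U f ↔ ∀ q, f q ∉ P.forb D q := by
  constructor
  · rintro h ⟨t, a⟩ hq
    obtain ⟨x, hx, hxa⟩ := Finset.mem_image.1 hq
    rw [Finset.mem_filter] at hx
    exact (Finset.mem_filter.1 (h hx.1)).2 t a hx.2 hxa.symm
  · intro h x hx
    refine Finset.mem_filter.2 ⟨hD hx, fun t a ha hf => ?_⟩
    exact h (t, a) (Finset.mem_image.2 ⟨x, Finset.mem_filter.2 ⟨hx, ha⟩, hf.symm⟩)

/-- probability that all points of `D` stay uncovered -/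
noncomputable def Phase.pr (P : Phase φ T s) (D : Finset ι) : ℝ :=
  avg fun f => if D ⊆ P.U f then 1 else 0

lemma Phase.pr_eq (P : Phase φ T s) {K p : ℕ} (h : Design K p φ) (hp : 0 < p) {D : Finset ι}
    (hD : D ⊆ P.good) :
    P.pr D = ∏ q : Fin T × A, (1 - ((P.forb D q).card : ℝ) / p) := by
  unfold Phase.pr avg
  rw [Finset.sum_boole]
  have h1 : (univ.filter fun f : Fin T × A → B => D ⊆ P.U f) =
      Fintype.piFinset fun q => (P.forb D q)ᶜ := by
    ext f
    simp [P.subset_U_iff hD]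
  rw [h1, Fintype.card_piFinset, Fintype.card_fun, h.cardB]
  push_cast
  have h2 : ((p : ℝ)) ^ (Fintype.card (Fin T × A)) = ∏ q : Fin T × A, (p : ℝ) := by
    rw [Finset.prod_const, Finset.card_univ]
  rw [h2, ← Finset.prod_div_distrib]
  refine Finset.prod_congr rfl fun q _ => ?_
  have hp' : (p : ℝ) ≠ 0 := by positivity
  rw [Finset.card_compl, h.cardB, Nat.cast_sub]
  · field_simp
  · rw [← h.cardB]; exact Finset.card_le_univ _

lemma Phase.pr_nonneg (P : Phase φ T s) (D : Finset ι) : 0 ≤ P.pr D :=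
  avg_nonneg fun f => by split_ifs <;> norm_num

lemma Phase.pr_le_one [Nonempty B] (P : Phase φ T s) (D : Finset ι) : P.pr D ≤ 1 := by
  unfold Phase.pr avg
  rw [div_le_one (by exact_mod_cast Fintype.card_pos)]
  calc ∑ f : (Fin T × A → B), (if D ⊆ P.U f then (1 : ℝ) else 0) ≤ ∑ f : (Fin T × A → B), 1 :=
        Finset.sum_le_sum fun f _ => by split_ifs <;> norm_num
    _ = _ := by simp

lemma Phase.sum_forb_le (P : Phase φ T s) {D : Finset ι} (hD : D ⊆ P.good) :
    ∑ q : Fin T × A, (P.forb D q).card ≤ T * (D.card * s) := by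
  have h1 : ∀ q : Fin T × A, (P.forb D q).card ≤ (D.filter fun x => q.2 ∈ P.act q.1 x).card :=
    fun q => Finset.card_image_le
  refine (Finset.sum_le_sum fun q _ => h1 q).trans ?_
  rw [Fintype.sum_prod_type]
  have h2 : ∀ t : Fin T, ∑ a : A, (D.filter fun x => a ∈ P.act t x).card = D.card * s := by
    intro t
    simp only [Finset.card_filter]
    rw [Finset.sum_comm]
    rw [Finset.sum_congr rfl (g := fun _ => s)]
    · simp
    · intro x hx
      have h9 := P.card_act t x (hD hx)
      simpa using h9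
  rw [Finset.sum_congr rfl (fun t _ => h2 t)]
  simp

lemma card_le_card_image_add (φa : ι → B) (D D' : Finset ι) (hD : D' ⊆ D) :
    D'.card ≤ (D'.image φa).card + ∑ x ∈ D, ∑ y ∈ D.erase x, if φa x = φa y then 1 else 0 := by
  classical
  set E := D'.filter fun x => ∀ y ∈ D.erase x, φa x ≠ φa y with hE
  have h1 : E.card ≤ (D'.image φa).card := by
    have : (E.image φa).card = E.card := by
      refine Finset.card_image_of_injOn fun x hx y hy hxy => ?_
      by_contra hne
      have hx' := (Finset.mem_filter.1 (Finset.mem_coe.1 hx))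
      have hy' := (Finset.mem_filter.1 (Finset.mem_coe.1 hy))
      exact hx'.2 y (Finset.mem_erase.2 ⟨fun h => hne h.symm, hD hy'.1⟩) hxy
    rw [← this]
    exact Finset.card_le_card (Finset.image_subset_image (Finset.filter_subset _ _))
  have h2 : (D'.filter fun x => ¬ ∀ y ∈ D.erase x, φa x ≠ φa y).card ≤
      ∑ x ∈ D, ∑ y ∈ D.erase x, if φa x = φa y then 1 else 0 := by
    calc (D'.filter fun x => ¬ ∀ y ∈ D.erase x, φa x ≠ φa y).card
        ≤ (D.filter fun x => ¬ ∀ y ∈ D.erase x, φa x ≠ φa y).card :=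
          Finset.card_le_card (Finset.filter_subset_filter _ hD)
      _ = ∑ x ∈ D, if ¬ ∀ y ∈ D.erase x, φa x ≠ φa y then 1 else 0 := Finset.card_filter _ _
      _ ≤ _ := by
        refine Finset.sum_le_sum fun x _ => ?_
        by_cases h3 : ∀ y ∈ D.erase x, φa x ≠ φa y
        · rw [if_neg (not_not.2 h3)]; exact Nat.zero_le _
        · rw [if_pos h3]
          push Not at h3
          obtain ⟨y, hy, hxy⟩ := h3
          calc 1 = if φa x = φa y then 1 else 0 := by rw [if_pos hxy]
            _ ≤ _ := Finset.single_le_sum (f := fun y => if φa x = φa y then 1 else 0)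
              (fun _ _ => Nat.zero_le _) hy
  have h3 := Finset.card_filter_add_card_filter_not (s := D')
    (fun x => ∀ y ∈ D.erase x, φa x ≠ φa y)
  rw [← hE] at h3
  omega

lemma Phase.le_sum_forb (P : Phase φ T s) {K p : ℕ} (h : Design K p φ) {D : Finset ι}
    (hD : D ⊆ P.good) :
    T * (D.card * s) ≤ ∑ q : Fin T × A, (P.forb D q).card + T * D.card ^ 2 := by
  rw [Fintype.sum_prod_type]
  have h2 : ∀ t : Fin T, D.card * s ≤ ∑ a : A, (P.forb D (t, a)).card + D.card ^ 2 := by
    intro t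
    have h3 : ∑ a : A, (D.filter fun x => a ∈ P.act t x).card = D.card * s := by
      simp only [Finset.card_filter]
      rw [Finset.sum_comm]
      rw [Finset.sum_congr rfl (g := fun _ => s)]
      · simp
      · intro x hx
        have h9 := P.card_act t x (hD hx)
        simpa using h9
    rw [← h3]
    have h4 : ∀ a : A, (D.filter fun x => a ∈ P.act t x).card ≤ (P.forb D (t, a)).card +
        ∑ x ∈ D, ∑ y ∈ D.erase x, if φ a x = φ a y then 1 else 0 := fun a =>
      card_le_card_image_add (φ a) D _ (Finset.filter_subset _ _)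
    refine (Finset.sum_le_sum fun a _ => h4 a).trans ?_
    rw [Finset.sum_add_distrib]
    refine Nat.add_le_add_left ?_ _
    rw [Finset.sum_comm]
    have h5 : ∀ x ∈ D, ∑ a : A, ∑ y ∈ D.erase x, (if φ a x = φ a y then 1 else 0) ≤ D.card := by
      intro x hx
      rw [Finset.sum_comm]
      calc ∑ y ∈ D.erase x, ∑ a : A, (if φ a x = φ a y then 1 else 0)
          ≤ ∑ y ∈ D.erase x, 1 := by
            refine Finset.sum_le_sum fun y hy => ?_
            have := h.codeg x y (Finset.ne_of_mem_erase hy).symm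
            rwa [Finset.card_filter] at this
        _ ≤ D.card := by
            simp only [Finset.sum_const, smul_eq_mul, mul_one]
            exact Finset.card_le_card (Finset.erase_subset _ _)
    calc ∑ x ∈ D, ∑ a : A, ∑ y ∈ D.erase x, (if φ a x = φ a y then 1 else 0)
        ≤ ∑ x ∈ D, D.card := Finset.sum_le_sum h5
      _ = D.card ^ 2 := by simp [sq]
  calc T * (D.card * s) = ∑ t : Fin T, D.card * s := by simp
    _ ≤ ∑ t : Fin T, (∑ a : A, (P.forb D (t, a)).card + D.card ^ 2) :=
      Finset.sum_le_sum fun t _ => h2 t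
    _ = _ := by rw [Finset.sum_add_distrib]; simp

/-- upper bound for the probability that `D` stays uncovered -/
lemma Phase.pr_le (P : Phase φ T s) {K p : ℕ} (h : Design K p φ) (hp : 1 < p) {D : Finset ι}
    (hD : D ⊆ P.good) :
    P.pr D * (1 - 1 / (p : ℝ)) ^ (T * D.card ^ 2) ≤ ((1 - 1 / (p : ℝ)) ^ (T * s)) ^ D.card := by
  have hp0 : (0 : ℝ) < p := by positivity
  have hp1 : (1 : ℝ) < p := by exact_mod_cast hp
  have hq0 : 0 < 1 - 1 / (p : ℝ) := by
    rw [sub_pos, div_lt_one hp0]; exact hp1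
  have hq1 : 1 - 1 / (p : ℝ) ≤ 1 := by
    have : 0 < 1 / (p : ℝ) := by positivity
    linarith
  have h1 : P.pr D ≤ (1 - 1 / (p : ℝ)) ^ (∑ q : Fin T × A, (P.forb D q).card) := by
    rw [P.pr_eq h (by omega) hD, ← Finset.prod_pow_eq_pow_sum]
    refine Finset.prod_le_prod (fun q _ => ?_) fun q _ => ?_
    · have : ((P.forb D q).card : ℝ) ≤ p := by
        rw [← h.cardB]; exact_mod_cast Finset.card_le_univ _
      rw [sub_nonneg, div_le_one hp0]; exact this
    · have := one_add_mul_le_pow (a := -(1 / (p : ℝ))) (by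
        have : 1 / (p : ℝ) ≤ 1 := by rw [div_le_one hp0]; exact hp1.le
        linarith) (P.forb D q).card
      calc 1 - ((P.forb D q).card : ℝ) / p = 1 + ((P.forb D q).card : ℝ) * (-(1 / (p : ℝ))) := by
            ring
        _ ≤ _ := this
        _ = _ := by ring
  calc P.pr D * (1 - 1 / (p : ℝ)) ^ (T * D.card ^ 2)
      ≤ (1 - 1 / (p : ℝ)) ^ (∑ q : Fin T × A, (P.forb D q).card) *
        (1 - 1 / (p : ℝ)) ^ (T * D.card ^ 2) :=
        mul_le_mul_of_nonneg_right h1 (by positivity)
    _ = (1 - 1 / (p : ℝ)) ^ (∑ q : Fin T × A, (P.forb D q).card + T * D.card ^ 2) := by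
        rw [pow_add]
    _ ≤ (1 - 1 / (p : ℝ)) ^ (T * (D.card * s)) :=
        pow_le_pow_of_le_one hq0.le hq1 (P.le_sum_forb h hD)
    _ = ((1 - 1 / (p : ℝ)) ^ (T * s)) ^ D.card := by rw [← pow_mul]; ring_nf

lemma one_sub_div_ge {K p n : ℕ} (hn : n ≤ K) (hK : K < p) :
    (1 - 1 / ((p : ℝ) - K)) ^ n ≤ 1 - (n : ℝ) / p := by
  have hp0 : (0 : ℝ) < p := by exact_mod_cast (by omega : 0 < p)
  have hpK : (1 : ℝ) ≤ (p : ℝ) - K := by
    have : (K : ℝ) + 1 ≤ p := by exact_mod_cast hK
    linarith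
  induction n with
  | zero => simp
  | succ n ih =>
    have h1 := ih (by omega)
    have hq0 : 0 ≤ 1 - 1 / ((p : ℝ) - K) := by
      rw [sub_nonneg, div_le_one (by linarith)]; exact hpK
    have hn' : (n : ℝ) + 1 ≤ K := by exact_mod_cast hn
    have hpn : 0 < (p : ℝ) - n := by linarith
    have h2 : 1 - 1 / ((p : ℝ) - K) ≤ 1 - 1 / ((p : ℝ) - n) := by
      have : 1 / ((p : ℝ) - n) ≤ 1 / ((p : ℝ) - K) :=
        one_div_le_one_div_of_le (by linarith) (by linarith)
      linarith
    have h3 : 0 ≤ 1 - (n : ℝ) / p := by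
      rw [sub_nonneg, div_le_one hp0]; linarith
    calc (1 - 1 / ((p : ℝ) - K)) ^ (n + 1)
        = (1 - 1 / ((p : ℝ) - K)) ^ n * (1 - 1 / ((p : ℝ) - K)) := pow_succ _ _
      _ ≤ (1 - (n : ℝ) / p) * (1 - 1 / ((p : ℝ) - n)) := mul_le_mul h1 h2 hq0 h3
      _ = 1 - ((n + 1 : ℕ) : ℝ) / p := by
        push_cast
        field_simp
        ring

/-- lower bound for the probability that `D` stays uncovered -/
lemma Phase.le_pr (P : Phase φ T s) {K p : ℕ} (h : Design K p φ) (hK : K < p) {D : Finset ι}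
    (hD : D ⊆ P.good) (hDK : D.card ≤ K) :
    (1 - 1 / ((p : ℝ) - K)) ^ (T * (D.card * s)) ≤ P.pr D := by
  have hpK : (1 : ℝ) ≤ (p : ℝ) - K := by
    have : (K : ℝ) + 1 ≤ p := by exact_mod_cast hK
    linarith
  have hq0 : 0 ≤ 1 - 1 / ((p : ℝ) - K) := by
    rw [sub_nonneg, div_le_one (by linarith)]; exact hpK
  have hq1 : 1 - 1 / ((p : ℝ) - K) ≤ 1 := by
    have : 0 < 1 / ((p : ℝ) - K) := by positivity
    linarith
  rw [P.pr_eq h (by omega) hD]
  calc (1 - 1 / ((p : ℝ) - K)) ^ (T * (D.card * s))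
      ≤ (1 - 1 / ((p : ℝ) - K)) ^ (∑ q : Fin T × A, (P.forb D q).card) :=
        pow_le_pow_of_le_one hq0 hq1 (P.sum_forb_le hD)
    _ = ∏ q : Fin T × A, (1 - 1 / ((p : ℝ) - K)) ^ (P.forb D q).card := by
        rw [Finset.prod_pow_eq_pow_sum]
    _ ≤ _ := by
        refine Finset.prod_le_prod (fun q _ => by positivity) fun q _ => ?_
        refine one_sub_div_ge ?_ hK
        exact (Finset.card_image_le.trans (Finset.card_le_card (Finset.filter_subset _ _))).trans
          hDK

end Pool.Agent.Lib.MP_6df53f_co
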